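import Pool.Agent.W2helper83.MD.Tube

/-!
# Two different Steiner trees, one of which is a maximal distance minimizer
-/

set_option autoImplicit false

open MeasureTheory Set Filter Topology
open scoped ENNReal

namespace Pool.Agent.W2helper83.MD

namespace FatCantor

variable (F : FatCantor)

/-- injectivity on an interval of length less than two -/
lemma ga_injOn {a b : ℝ} (hab : b < a + 2) : InjOn F.ga (Icc a b) := by
  intro s hs s' hs' h
  obtain ⟨n, hn⟩ := F.ga_inj h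
  have hn1 : (n:ℝ) < 1 := by linarith [hs.1, hs.2, hs'.1, hs'.2]
  have hn2 : (-1:ℝ) < n := by linarith [hs.1, hs.2, hs'.1, hs'.2]
  have hn1' : n < 1 := by exact_mod_cast hn1
  have hn2' : -1 < n := by exact_mod_cast hn2
  have : n = 0 := by omega
  subst this
  rw [hn]; simp

lemma emb {a b : ℝ} (hab : b < a + 2) : IsClosedEmbedding (fun s : Icc a b => F.ga s) :=
  Continuous.isClosedEmbedding (F.ga_cont.comp continuous_subtype_val) (by
    intro s s' h
    exact Subtype.ext (F.ga_injOn hab s.2 s'.2 h))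

/-- the terminals form a totally disconnected set -/
lemma totDisc {p q : ℝ} (hpq : p < q) (hgap : ∀ x ∈ Ioo p q, x ∉ F.K) :
    IsTotallyDisconnected F.A := by
  have he := F.emb (a := q) (b := p + 2) (by linarith)
  have hlt := F.gap_lt hgap
  have e : F.A = (fun s : Icc q (p + 2) => F.ga s) '' {s | (s : ℝ) ∈ F.K} := by
    apply subset_antisymm
    · rintro _ ⟨s, hs, rfl⟩
      -- shift s into (p, p + 2]
      obtain ⟨n, hn1, hn2⟩ : ∃ n : ℤ, p < s - 2 * n ∧ s - 2 * n ≤ p + 2 := by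
        refine ⟨⌈(s - p - 2) / 2⌉, ?_, ?_⟩
        · have := Int.ceil_lt_add_one ((s - p - 2) / 2)
          linarith
        · have := Int.le_ceil ((s - p - 2) / 2)
          linarith
      have h1 : F.ga (s + 2 * (-n : ℤ)) = F.ga s := F.ga_add_int s (-n)
      have h2 : s + 2 * (-n : ℤ) ∈ F.K := (F.per_int s (-n)).2 hs
      push_cast at h1 h2
      have h3 : q ≤ s + 2 * -n := by
        by_contra hcon
        push Not at hcon
        exact hgap _ ⟨by linarith, hcon⟩ h2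
      exact ⟨⟨s + 2 * -n, h3, by linarith⟩, h2, h1⟩
    · rintro _ ⟨s, hs, rfl⟩
      exact ⟨s, hs, rfl⟩
  rw [e, he.isEmbedding.isTotallyDisconnected_image]
  intro t htK ht
  have h1 : IsPreconnected (Subtype.val '' t) := ht.image _ continuous_subtype_val.continuousOn
  have h2 : (Subtype.val '' t) ⊆ F.K := by
    rintro _ ⟨s, hs, rfl⟩
    exact htK hs
  intro x hx y hy
  by_contra hne
  have hoc := h1.ordConnected
  have hxy : (x : ℝ) ≠ y := fun h => hne (Subtype.ext h)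
  have key : ∀ u v : ℝ, u ∈ Subtype.val '' t → v ∈ Subtype.val '' t → u < v → False := by
    intro u v hu hv huv
    obtain ⟨z, hz, hzK⟩ := F.gaps u v huv
    exact hzK (h2 (hoc.out hu hv ⟨hz.1.le, hz.2.le⟩))
  rcases lt_or_gt_of_ne hxy with h | h
  · exact key _ _ ⟨x, hx, rfl⟩ ⟨y, hy, rfl⟩ h
  · exact key _ _ ⟨y, hy, rfl⟩ ⟨x, hx, rfl⟩ h

/-- the tangent directions of a straight piece are parallel -/
lemma not_straight {s₁ s₂ s₀ : ℝ} (h0 : s₀ ∈ F.K) (h1 : s₁ < s₀) (h2 : s₀ < s₂) {x v : ℂ} (hv : v ≠ 0)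
    (h : ∀ s ∈ Icc s₁ s₂, ∃ τ : ℝ, F.ga s = x + τ * v) : False := by
  -- the derivative
  have hder : ∀ s ∈ Ioo s₁ s₂, (F.ta s * (starRingEnd ℂ) v).im = 0 := by
    intro s hs
    have hd : HasDerivAt (fun u => ((F.ga u - x) * (starRingEnd ℂ) v).im)
        (F.ta s * (starRingEnd ℂ) v).im s := by
      have h3 : HasDerivAt (fun u => (F.ga u - x) * (starRingEnd ℂ) v) (F.ta s * (starRingEnd ℂ) v) s :=
        ((F.ga_deriv s).sub_const x).mul_const _
      exact Complex.imCLM.hasFDerivAt.comp_hasDerivAt s h3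
    have hz : (fun u => ((F.ga u - x) * (starRingEnd ℂ) v).im) =ᶠ[𝓝 s] fun _ => 0 := by
      filter_upwards [Ioo_mem_nhds hs.1 hs.2] with u hu
      obtain ⟨τ, hτ⟩ := h u ⟨hu.1.le, hu.2.le⟩
      rw [hτ, add_sub_cancel_left, mul_assoc, Complex.mul_conj, ← Complex.ofReal_mul,
        Complex.ofReal_im]
    have := hz.hasDerivAt_iff.1 hd
    exact this.unique (hasDerivAt_const s (0:ℝ))
  -- hence sin (θ s - θ s') = 0
  have hsin : ∀ s ∈ Ioo s₁ s₂, ∀ s' ∈ Ioo s₁ s₂, Real.sin (F.th s - F.th s') = 0 := by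
    intro s hs s' hs'
    have e1 := hder s hs
    have e2 := hder s' hs'
    -- a = ta s, b = ta s'
    have hvv : 0 < Complex.normSq v := Complex.normSq_pos.2 hv
    have e3 : (F.ta s * (starRingEnd ℂ) (F.ta s')).im * Complex.normSq v = 0 := by
      have h4 : (F.ta s * (starRingEnd ℂ) (F.ta s')) * (Complex.normSq v : ℂ) =
          (F.ta s * (starRingEnd ℂ) v) * (starRingEnd ℂ) (F.ta s' * (starRingEnd ℂ) v) := by
        rw [map_mul, Complex.conj_conj, ← Complex.mul_conj]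
        ring
      have h5 := congrArg Complex.im h4
      rw [Complex.im_mul_ofReal] at h5
      rw [h5, Complex.mul_im, Complex.conj_im, Complex.conj_re, e1, e2]
      ring
    have e4 : (F.ta s * (starRingEnd ℂ) (F.ta s')).im = 0 := by
      rcases mul_eq_zero.1 e3 with h | h
      · exact h
      · exact absurd h hvv.ne'
    have e5 : F.ta s * (starRingEnd ℂ) (F.ta s') =
        Complex.exp (((F.th s - F.th s' : ℝ) : ℂ) * Complex.I) := by
      unfold ta
      rw [← Complex.exp_conj, ← Complex.exp_add]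
      congr 1
      simp
      ring
    rw [e5, Complex.exp_ofReal_mul_I_im] at e4
    exact e4
  -- choose parameters
  have hm1 : (s₁ + s₀) / 2 ∈ Ioo s₁ s₂ := ⟨by linarith, by linarith⟩
  have hm2 : (s₀ + s₂) / 2 ∈ Ioo s₁ s₂ := ⟨by linarith, by linarith⟩
  have hlt := F.th_lt (a := (s₁ + s₀) / 2) (b := (s₀ + s₂) / 2) h0 (by linarith) (by linarith)
  obtain ⟨v', hv1, hv2⟩ := exists_between (lt_min hlt
    (show F.th ((s₁ + s₀) / 2) < F.th ((s₁ + s₀) / 2) + Real.pi by linarith [Real.pi_pos]))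
  have hv3 := hv2.trans_le (min_le_left _ _)
  have hv4 := hv2.trans_le (min_le_right _ _)
  obtain ⟨w, hw, hw2⟩ := intermediate_value_Ioo (by linarith : (s₁ + s₀) / 2 ≤ (s₀ + s₂) / 2)
    F.th_cont.continuousOn ⟨hv1, hv3⟩
  have hwm : w ∈ Ioo s₁ s₂ := ⟨by linarith [hw.1], by linarith [hw.2]⟩
  have := hsin w hwm _ hm1
  rw [hw2] at this
  have hpos := Real.sin_pos_of_pos_of_lt_pi (x := v' - F.th ((s₁ + s₀) / 2)) (by linarith) (by linarith)
  linarith

/-- no terminal lies inside a segment of the curve -/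
lemma no_seg {p q : ℝ} (hpq : p < q) {x y : ℂ} (hxy : x ≠ y)
    (hseg : segment ℝ x y ⊆ F.ga '' Icc q (p + 2)) {z : ℂ} (hz : z ∈ F.A) (hzo : z ∈ openSegment ℝ x y) :
    False := by
  have he := F.emb (a := q) (b := p + 2) (by linarith)
  -- lift of the segment
  have hlift : ∀ τ : Icc (0:ℝ) 1, ∃ s : Icc q (p + 2), F.ga s = x + (τ : ℝ) * (y - x) := by
    intro τ
    have h1 : x + (τ : ℝ) * (y - x) ∈ segment ℝ x y := by
      rw [segment_eq_image']
      exact ⟨τ, τ.2, by simp⟩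
    obtain ⟨s, hs, h2⟩ := hseg h1
    exact ⟨⟨s, hs⟩, h2⟩
  choose k hk using hlift
  have hkc : Continuous k := by
    rw [he.isEmbedding.continuous_iff]
    have : (fun s : Icc q (p + 2) => F.ga s) ∘ k = fun τ : Icc (0:ℝ) 1 => x + (τ : ℝ) * (y - x) := by
      funext τ
      exact hk τ
    rw [this]
    fun_prop
  have hki : Function.Injective k := by
    intro τ τ' h
    have h1 := hk τ
    rw [h, hk τ'] at h1
    have h2 : ((τ' : ℝ) : ℂ) * (y - x) = ((τ : ℝ) : ℂ) * (y - x) := add_left_cancel h1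
    have h3 := mul_right_cancel₀ (sub_ne_zero.2 hxy.symm) h2
    apply Subtype.ext
    exact (Complex.ofReal_injective h3).symm
  -- as a function on the reals
  set h : ℝ → ℝ := fun τ => if hτ : τ ∈ Icc (0:ℝ) 1 then (k ⟨τ, hτ⟩ : ℝ) else 0 with hh
  have hhv : ∀ τ (hτ : τ ∈ Icc (0:ℝ) 1), h τ = k ⟨τ, hτ⟩ := fun τ hτ => by simp only [hh]; rw [dif_pos hτ]
  have hhc : ContinuousOn h (Icc 0 1) := by
    rw [continuousOn_iff_continuous_domRestrict]
    have : (Icc (0:ℝ) 1).domRestrict h = fun τ => (k τ : ℝ) := by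
      funext τ
      exact hhv τ τ.2
    rw [this]
    exact continuous_subtype_val.comp hkc
  have hhi : InjOn h (Icc 0 1) := by
    intro τ hτ τ' hτ' h1
    rw [hhv τ hτ, hhv τ' hτ'] at h1
    have := hki (Subtype.ext h1)
    exact congrArg Subtype.val this
  have hga : ∀ τ ∈ Icc (0:ℝ) 1, F.ga (h τ) = x + τ * (y - x) := by
    intro τ hτ
    rw [hhv τ hτ]
    exact hk ⟨τ, hτ⟩
  -- the parameter of z
  rw [openSegment_eq_image'] at hzo
  obtain ⟨τ₀, hτ₀, rfl⟩ := hzo
  have hτ₀' : τ₀ ∈ Icc (0:ℝ) 1 := ⟨hτ₀.1.le, hτ₀.2.le⟩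
  have h0K : h τ₀ ∈ F.K := by
    obtain ⟨s, hs, hs2⟩ := hz
    have h3 := hga τ₀ hτ₀'
    have h4 : F.ga s = F.ga (h τ₀) := by
      rw [hs2, h3]; simp
    obtain ⟨n, hn⟩ := F.ga_inj h4
    rw [hn]
    exact (F.per_int s n).2 hs
  have hv : y - x ≠ 0 := sub_ne_zero.2 hxy.symm
  rcases hhc.strictMonoOn_of_injOn_Icc' zero_le_one hhi with hm | hm
  · refine F.not_straight (s₁ := h 0) (s₂ := h 1) h0K (hm (by simp) hτ₀' hτ₀.1) (hm hτ₀' (by simp) hτ₀.2)
      (x := x) hv fun s hs => ?_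
    obtain ⟨τ, hτ, rfl⟩ := intermediate_value_Icc zero_le_one hhc hs
    exact ⟨τ, hga τ hτ⟩
  · refine F.not_straight (s₁ := h 1) (s₂ := h 0) h0K (hm hτ₀' (by simp) hτ₀.2) (hm (by simp) hτ₀' hτ₀.1)
      (x := x) hv fun s hs => ?_
    obtain ⟨τ, hτ, rfl⟩ := intermediate_value_Icc' zero_le_one hhc hs
    exact ⟨τ, hga τ hτ⟩

/-- the lower bound for the length of all competitors -/
lemma low' {W : Set ℂ} (hWc : IsCompact W) (hconn : IsPreconnected W) (hAW : F.A ⊆ W)
    {p q : ℝ} (hq : q ∈ F.K) (hmax : ∀ a b : ℝ, (∀ x ∈ Ioo a b, x ∉ F.K) → b - a ≤ q - p) :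
    μH[1] F.A + ENNReal.ofReal (2 * (1 - F.c) - (q - p)) ≤ μH[1] W := by
  have h := F.low hWc hconn hAW hq hmax
  calc μH[1] F.A + ENNReal.ofReal (2 * (1 - F.c) - (q - p)) ≤ μH[1] F.A + μH[1] (W \ F.A) := by gcongr
    _ = μH[1] W := by
        have := measure_inter_add_sdiff (μ := μH[1]) W F.isCompact_A.measurableSet
        rw [← this, inter_eq_self_of_subset_right hAW]

end FatCantor

/-- the statement in the complex plane -/
theorem main_complex :
    ∃ (A S T M : Set ℂ) (r : ℝ),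
    IsCompact A ∧ A.Nonempty ∧ IsTotallyDisconnected A ∧
    (IsCompact S ∧ IsConnected S ∧ A ⊆ S ∧ μH[1] S < ⊤ ∧
      ∀ S' : Set ℂ, IsCompact S' → IsConnected S' → A ⊆ S' → μH[1] S ≤ μH[1] S') ∧
    (IsCompact T ∧ IsConnected T ∧ A ⊆ T ∧ μH[1] T < ⊤ ∧
      ∀ S' : Set ℂ, IsCompact S' → IsConnected S' → A ⊆ S' → μH[1] T ≤ μH[1] S') ∧
    S ≠ T ∧
    IsCompact M ∧ M.Nonempty ∧ 0 < r ∧
    ¬ A.Finite ∧
    (¬ ∃ a ∈ A, ∃ x y : ℂ, x ≠ y ∧ segment ℝ x y ⊆ S ∧ a ∈ openSegment ℝ x y) ∧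
    (∀ y ∈ M, Metric.infDist y S ≤ r) ∧
    ∀ W : Set ℂ, IsCompact W → IsConnected W → (∀ y ∈ M, Metric.infDist y W ≤ r) → μH[1] S ≤ μH[1] W := by
  obtain ⟨F⟩ := exists_fatCantor
  obtain ⟨p, q, hp, hq, hpq, hgap, hmax⟩ := F.exists_gap
  have hlt := F.gap_lt hgap
  have hth : F.th q = F.th p := F.th_const hpq.le hgap
  have hth2 : ∀ s, F.th (s + 2) = F.th s + 2 * Real.pi := by
    intro s
    have : s + 2 = s + 1 + 1 := by ring
    rw [this, F.th_add_one, F.th_add_one]; ring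
  have hc := F.c_ge
  -- the size of the gap
  have hgapc : q - p ≤ 1 - F.c := by
    have h1 := F.th_lip (a := q) (b := p + 1) hlt.le
    rw [F.th_add_one, hth] at h1
    have h2 : Real.pi ≤ F.kap * (p + 1 - q) := by linarith
    have h3 := F.pi_div_kap
    rw [div_eq_iff F.kap_pos.ne'] at h3
    rw [h3, mul_comm] at h2
    have := le_of_mul_le_mul_left h2 F.kap_pos
    linarith
  set S : Set ℂ := F.ga '' Icc q (p + 2) with hS
  set T : Set ℂ := F.ga '' Icc (q - 1) (p + 1) with hT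
  have hSc : IsCompact S := isCompact_Icc.image F.ga_cont
  have hTc : IsCompact T := isCompact_Icc.image F.ga_cont
  have hSconn : IsConnected S := (isConnected_Icc (by linarith)).image _ F.ga_cont.continuousOn
  have hTconn : IsConnected T := (isConnected_Icc (by linarith)).image _ F.ga_cont.continuousOn
  have hAS : F.A ⊆ S := by
    rintro _ ⟨s, hs, rfl⟩
    obtain ⟨n, hn1, hn2⟩ : ∃ n : ℤ, p < s - 2 * n ∧ s - 2 * n ≤ p + 2 := by
      refine ⟨⌈(s - p - 2) / 2⌉, ?_, ?_⟩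
      · have := Int.ceil_lt_add_one ((s - p - 2) / 2)
        linarith
      · have := Int.le_ceil ((s - p - 2) / 2)
        linarith
    have h1 : F.ga (s + 2 * (-n : ℤ)) = F.ga s := F.ga_add_int s (-n)
    have h2 : s + 2 * (-n : ℤ) ∈ F.K := (F.per_int s (-n)).2 hs
    push_cast at h1 h2
    have h3 : q ≤ s + 2 * -n := by
      by_contra hcon
      push Not at hcon
      exact hgap _ ⟨by linarith, hcon⟩ h2
    exact ⟨s + 2 * -n, ⟨h3, by linarith⟩, h1⟩
  have hAT : F.A ⊆ T := by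
    rintro _ ⟨s, hs, rfl⟩
    -- ga s = - ga (s + 1), and ga (s + 1) ∈ S
    obtain ⟨u, hu, hu2⟩ := hAS ⟨s + 1, (F.per s).2 hs, rfl⟩
    refine ⟨u - 1, ⟨by linarith [hu.1], by linarith [hu.2]⟩, ?_⟩
    have h1 := F.ga_add_one (u - 1)
    rw [sub_add_cancel] at h1
    rw [F.ga_add_one, h1] at hu2
    exact neg_injective hu2
  have hSlen : μH[1] S ≤ μH[1] F.A + ENNReal.ofReal (2 * (1 - F.c) - (q - p)) := by
    have := F.H_piece (a := q) (L := q - p) (by linarith) (by
      have e : q + (2 - (q - p)) = p + 2 := by ring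
      rw [e, hth2, hth]; ring)
    have e : q + (2 - (q - p)) = p + 2 := by ring
    rwa [e] at this
  have hTlen : μH[1] T ≤ μH[1] F.A + ENNReal.ofReal (2 * (1 - F.c) - (q - p)) := by
    have h1 : F.th (p + 1) - F.th (q - 1) = 2 * Real.pi := by
      have h2 := F.th_add_one (q - 1)
      rw [sub_add_cancel] at h2
      rw [F.th_add_one]
      linarith
    have := F.H_piece (a := q - 1) (L := q - p) (by linarith) (by
      have e : q - 1 + (2 - (q - p)) = p + 1 := by ring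
      rw [e, h1])
    have e : q - 1 + (2 - (q - p)) = p + 1 := by ring
    rwa [e] at this
  have hAfin : μH[1] F.A < ⊤ := by
    rw [F.A_eq]
    refine (F.H_image _).trans_lt ((measure_mono inter_subset_right).trans_lt ?_)
    exact measure_Icc_lt_top
  have hfin : μH[1] F.A + ENNReal.ofReal (2 * (1 - F.c) - (q - p)) < ⊤ :=
    ENNReal.add_lt_top.2 ⟨hAfin, ENNReal.ofReal_lt_top⟩
  have hlow : ∀ S' : Set ℂ, IsCompact S' → IsConnected S' → F.A ⊆ S' →
      μH[1] F.A + ENNReal.ofReal (2 * (1 - F.c) - (q - p)) ≤ μH[1] S' := fun S' h1 h2 h3 =>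
    F.low' h1 h2.isPreconnected h3 hq hmax
  set r : ℝ := (q - p) / 3 with hr
  have hr0 : 0 < r := by rw [hr]; linarith
  refine ⟨F.A, S, T, Metric.cthickening r S, r, F.isCompact_A, ?_, F.totDisc hpq hgap,
    ⟨hSc, hSconn, hAS, hSlen.trans_lt hfin, fun S' h1 h2 h3 => hSlen.trans (hlow S' h1 h2 h3)⟩,
    ⟨hTc, hTconn, hAT, hTlen.trans_lt hfin, fun S' h1 h2 h3 => hTlen.trans (hlow S' h1 h2 h3)⟩,
    ?_, hSc.cthickening, ?_, hr0, ?_, ?_, ?_, ?_⟩
  · exact ⟨F.ga p, p, hp, rfl⟩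
  · -- S ≠ T
    intro hST
    have hmid : F.ga ((p + q) / 2) ∈ T := ⟨(p + q) / 2, ⟨by linarith, by linarith⟩, rfl⟩
    rw [← hST] at hmid
    obtain ⟨s, hs, hs2⟩ := hmid
    obtain ⟨n, hn⟩ := F.ga_inj hs2
    have hn1 : (n:ℝ) < 0 := by linarith [hs.1, hs.2]
    have hn2 : (-1:ℝ) < n := by linarith [hs.1, hs.2]
    have hn1' : n < 0 := by exact_mod_cast hn1
    have hn2' : -1 < n := by exact_mod_cast hn2
    omega
  · exact hSconn.nonempty.mono (Metric.self_subset_cthickening S)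
  · -- infinite
    intro hf
    -- K ∩ Ioo is infinite
    have h1 : 0 < volume (F.K ∩ Ioo (p - 1 / 2) (p + 1 / 2)) :=
      F.pos p hp _ _ (by linarith) (by linarith)
    have h2 : (F.K ∩ Ioo (p - 1 / 2) (p + 1 / 2)).Infinite := by
      intro hfin2
      rw [hfin2.measure_zero] at h1
      exact lt_irrefl _ h1
    have h3 : (F.ga '' (F.K ∩ Ioo (p - 1 / 2) (p + 1 / 2))).Finite :=
      hf.subset (image_mono inter_subset_left)
    have h4 : InjOn F.ga (F.K ∩ Ioo (p - 1 / 2) (p + 1 / 2)) :=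
      (F.ga_injOn (a := p - 1 / 2) (b := p + 1 / 2) (by linarith)).mono
        (inter_subset_right.trans Ioo_subset_Icc_self)
    exact h2 (h3.of_finite_image h4)
  · rintro ⟨a, ha, x, y, hxy, hseg, hao⟩
    exact F.no_seg hpq hxy hseg ha hao
  · intro y hy
    rw [Metric.cthickening_eq_preimage_infEDist] at hy
    rw [Metric.infDist]
    exact ENNReal.toReal_le_of_le_ofReal hr0.le hy
  · intro W hWc hWconn hW
    have hsub : Metric.cthickening r S ⊆ Metric.cthickening r W := by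
      intro y hy
      have h1 := hW y hy
      rw [Metric.mem_cthickening_iff, ENNReal.le_ofReal_iff_toReal_le]
      · exact h1
      · exact Metric.infEDist_ne_top hWconn.nonempty
      · exact hr0.le
    have hn := F.nbhd (p := p) (q := q) (r := r) hpq hgap hr0 (by rw [hr]; linarith)
      (by rw [hr]; linarith)
    have ha := area_le hWc hWconn hr0
    have h1 : ENNReal.ofReal (2 * r * (2 - (q - p))) + ENNReal.ofReal (Real.pi * r ^ 2) ≤
        ENNReal.ofReal (2 * r) * μH[1] W + ENNReal.ofReal (Real.pi * r ^ 2) :=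
      hn.trans ((measure_mono hsub).trans ha)
    have h2 := (ENNReal.add_le_add_iff_right ENNReal.ofReal_ne_top).1 h1
    rw [ENNReal.ofReal_mul (by positivity)] at h2
    have h3 : ENNReal.ofReal (2 - (q - p)) ≤ μH[1] W :=
      (ENNReal.mul_le_mul_iff_right (ENNReal.ofReal_pos.2 (by positivity)).ne' ENNReal.ofReal_ne_top).1 h2
    refine le_trans ?_ h3
    refine (F.H_image _).trans ?_
    rw [Real.volume_Icc]
    apply ENNReal.ofReal_le_ofReal
    linarith

end Pool.Agent.W2helper83.MD
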