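import Mathlib

/-!
# The area of the neighbourhoods of a connected set

For a compact connected set `W` in the plane `ℂ` the closed `r`-neighbourhood of `W` has area at most
`2 r H¹(W) + π r²`.
-/

set_option autoImplicit false

open MeasureTheory Set Filter Topology
open scoped ENNReal

namespace Pool.Agent.W2helper83.MD

/-- the part of a disc outside of a vertically shifted copy -/
lemma disc_shift_vert {R d : ℝ} (hd : 0 ≤ d) :
    volume (Metric.closedBall ((d : ℂ) * Complex.I) R \ Metric.closedBall (0 : ℂ) R) ≤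
      ENNReal.ofReal (2 * R * d) := by
  set E : Set ℂ := Metric.closedBall ((d : ℂ) * Complex.I) R \ Metric.closedBall (0 : ℂ) R with hE
  have hEm : MeasurableSet E := measurableSet_closedBall.diff measurableSet_closedBall
  have hmp := Complex.volume_preserving_equiv_real_prod.symm
  rw [← hmp.measure_preimage hEm.nullMeasurableSet, Measure.volume_eq_prod,
    Measure.prod_apply (hmp.measurable hEm)]
  have hR : R < 0 ∨ 0 ≤ R := lt_or_ge R 0
  rcases hR with hR | hR
  · have : E = ∅ := by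
      rw [hE, Metric.closedBall_eq_empty.2 hR, empty_sdiff]
    rw [this]
    simp
  calc ∫⁻ x, volume (Prod.mk x ⁻¹' (Complex.measurableEquivRealProd.symm ⁻¹' E))
      ≤ ∫⁻ x, (Icc (-R) R).indicator (fun _ => ENNReal.ofReal d) x := by
        apply lintegral_mono
        intro a
        simp only
        by_cases ha : a ∈ Icc (-R) R
        · rw [indicator_of_mem ha]
          set h : ℝ := √(R ^ 2 - a ^ 2) with hh
          have hnn : 0 ≤ R ^ 2 - a ^ 2 := by nlinarith [ha.1, ha.2]
          have hsq : h ^ 2 = R ^ 2 - a ^ 2 := Real.sq_sqrt hnn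
          have hh0 : 0 ≤ h := Real.sqrt_nonneg _
          have hsub : Prod.mk a ⁻¹' (Complex.measurableEquivRealProd.symm ⁻¹' E) ⊆ Ioc h (d + h) := by
            intro b hb
            have hb1 : (Complex.measurableEquivRealProd.symm (a, b)) ∈ E := hb
            have e : Complex.measurableEquivRealProd.symm (a, b) = ⟨a, b⟩ := rfl
            rw [e, hE, Set.mem_sdiff, mem_closedBall_iff_norm, mem_closedBall_iff_norm, sub_zero, not_le] at hb1
            have h1 : a ^ 2 + (b - d) ^ 2 ≤ R ^ 2 := by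
              have := sq_le_sq₀ (norm_nonneg _) hR |>.2 hb1.1
              rw [← Complex.normSq_eq_norm_sq, Complex.normSq_apply] at this
              simp at this
              nlinarith
            have h2 : R ^ 2 < a ^ 2 + b ^ 2 := by
              have := sq_lt_sq₀ hR (norm_nonneg _) |>.2 hb1.2
              rw [← Complex.normSq_eq_norm_sq, Complex.normSq_apply] at this
              simp at this
              nlinarith
            have h3 : |b - d| ≤ h := by
              rw [← Real.sqrt_sq_eq_abs]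
              exact Real.sqrt_le_sqrt (by linarith)
            rw [abs_le] at h3
            refine ⟨?_, by linarith [h3.2]⟩
            by_contra hcon
            push Not at hcon
            have : b ^ 2 ≤ h ^ 2 := by
              apply sq_le_sq'
              · linarith [h3.1]
              · exact hcon
            linarith
          calc volume _ ≤ volume (Ioc h (d + h)) := measure_mono hsub
            _ = ENNReal.ofReal d := by rw [Real.volume_Ioc]; congr 1; ring
        · rw [indicator_of_notMem ha]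
          have : Prod.mk a ⁻¹' (Complex.measurableEquivRealProd.symm ⁻¹' E) = ∅ := by
            ext b
            simp only [mem_preimage, mem_empty_iff_false, iff_false]
            intro hb
            have e : Complex.measurableEquivRealProd.symm (a, b) = ⟨a, b⟩ := rfl
            rw [e, hE, Set.mem_sdiff, mem_closedBall_iff_norm] at hb
            apply ha
            have h4 := (Complex.abs_re_le_norm _).trans hb.1
            simp at h4
            exact abs_le.1 h4
          rw [this, measure_empty]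
    _ = ENNReal.ofReal d * volume (Icc (-R) R) := by
        rw [lintegral_indicator measurableSet_Icc, lintegral_const, Measure.restrict_apply_univ]
    _ = ENNReal.ofReal (2 * R * d) := by
        rw [Real.volume_Icc, ← ENNReal.ofReal_mul hd]
        congr 1; ring

/-- a rigid motion of the plane does not change the area -/
lemma volume_rigid (x u : ℂ) (hu : ‖u‖ = 1) (S : Set ℂ) :
    volume ((fun z => x + u * z) '' S) = volume S := by
  have hc : u ∈ Submonoid.unitSphere ℂ := by
    rw [← SetLike.mem_coe, Submonoid.coe_unitSphere, mem_sphere_zero_iff_norm, hu]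
  let c : Circle := ⟨u, hc⟩
  have e : (fun z => x + u * z) '' S = (fun z => x + z) '' (rotation c '' S) := by
    rw [image_image]
    rfl
  rw [e, image_add_left, measure_preimage_add]
  have h2 : rotation c '' S = (rotation c).symm ⁻¹' S :=
    (rotation c).toEquiv.image_eq_preimage_symm S
  rw [h2]
  exact (rotation c).symm.measurePreserving.measure_preimage_emb
    (rotation c).symm.toHomeomorph.measurableEmbedding S

lemma image_closedBall_rigid (x u y : ℂ) (hu : ‖u‖ = 1) (R : ℝ) :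
    (fun z => x + u * z) '' Metric.closedBall y R = Metric.closedBall (x + u * y) R := by
  have hu0 : u ≠ 0 := by
    rintro rfl
    simp at hu
  ext w
  constructor
  · rintro ⟨z, hz, rfl⟩
    rw [mem_closedBall_iff_norm] at hz ⊢
    have : x + u * z - (x + u * y) = u * (z - y) := by ring
    rw [this, norm_mul, hu, one_mul]
    exact hz
  · intro hw
    refine ⟨u⁻¹ * (w - x), ?_, ?_⟩
    · rw [mem_closedBall_iff_norm] at hw ⊢
      have : u⁻¹ * (w - x) - y = u⁻¹ * (w - (x + u * y)) := by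
        field_simp
        ring
      rw [this, norm_mul, norm_inv, hu, inv_one, one_mul]
      exact hw
    · simp only
      field_simp
      ring

/-- the part of a disc outside of another disc of the same radius -/
lemma disc_shift (x y : ℂ) (R : ℝ) :
    volume (Metric.closedBall y R \ Metric.closedBall x R) ≤ ENNReal.ofReal (2 * R * dist x y) := by
  rcases eq_or_ne x y with rfl | hxy
  · simp
  have hd : 0 < dist x y := dist_pos.2 hxy
  have hyx : y - x ≠ 0 := sub_ne_zero.2 hxy.symm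
  have hdn : dist x y = ‖y - x‖ := by rw [dist_comm, dist_eq_norm]
  -- u maps i * d to y - x
  set u : ℂ := (y - x) / ((dist x y : ℂ) * Complex.I) with hu
  have hdc : (dist x y : ℂ) ≠ 0 := by exact_mod_cast hd.ne'
  have hu1 : ‖u‖ = 1 := by
    rw [hu, norm_div, norm_mul, Complex.norm_I, mul_one, Complex.norm_real, Real.norm_eq_abs,
      abs_of_pos hd, hdn, div_self (norm_ne_zero_iff.2 hyx)]
  have hu0 : u ≠ 0 := by
    intro h
    rw [h, norm_zero] at hu1
    exact zero_ne_one hu1
  have hinj : Function.Injective (fun z : ℂ => x + u * z) := by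
    intro z w h
    have h2 : u * z = u * w := by simpa using h
    exact mul_left_cancel₀ hu0 h2
  have h1 := disc_shift_vert (R := R) hd.le
  rw [← volume_rigid x u hu1, image_sdiff hinj, image_closedBall_rigid _ _ _ hu1,
    image_closedBall_rigid _ _ _ hu1] at h1
  have e1 : x + u * ((dist x y : ℂ) * Complex.I) = y := by
    rw [hu]
    field_simp
    ring
  rw [e1, mul_zero, add_zero] at h1
  exact h1

/-- a finite connected net of points, with a bound for its length -/
inductive Net : Finset ℂ → ℝ → Prop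
  | base (x : ℂ) : Net {x} 0
  | step (Q : Finset ℂ) (l : ℝ) (x y : ℂ) : Net Q l → x ∈ Q → Net (insert y Q) (l + dist x y)

lemma Net.nonneg {Q : Finset ℂ} {l : ℝ} (h : Net Q l) : 0 ≤ l := by
  induction h with
  | base x => exact le_rfl
  | step Q l x y _ _ ih => exact add_nonneg ih dist_nonneg

lemma Net.volume_le {Q : Finset ℂ} {l : ℝ} (h : Net Q l) {R : ℝ} (hR : 0 ≤ R) :
    volume (⋃ q ∈ Q, Metric.closedBall q R) ≤ ENNReal.ofReal (Real.pi * R ^ 2 + 2 * R * l) := by
  induction h with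
  | base x =>
    simp only [Finset.mem_singleton, iUnion_iUnion_eq_left, mul_zero, add_zero]
    rw [Complex.volume_closedBall]
    rw [ENNReal.ofReal_mul Real.pi_pos.le, ENNReal.ofReal_pow hR, mul_comm]
    apply le_of_eq
    congr 1
    exact (ENNReal.ofReal_coe_nnreal).symm
  | step Q l x y hQ hx ih =>
    have hl := hQ.nonneg
    have hsub : (⋃ q ∈ insert y Q, Metric.closedBall q R) ⊆
        (⋃ q ∈ Q, Metric.closedBall q R) ∪ (Metric.closedBall y R \ Metric.closedBall x R) := by
      intro z hz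
      simp only [Finset.mem_insert, mem_iUnion, exists_prop] at hz
      obtain ⟨q, hq, hz⟩ := hz
      by_cases h1 : z ∈ ⋃ q ∈ Q, Metric.closedBall q R
      · exact Or.inl h1
      · right
        rcases hq with rfl | hq
        · refine ⟨hz, fun h2 => h1 ?_⟩
          exact mem_biUnion (s := (Q : Set ℂ)) hx h2
        · exact absurd (mem_biUnion (s := (Q : Set ℂ)) hq hz) h1
    calc volume (⋃ q ∈ insert y Q, Metric.closedBall q R)
        ≤ volume (⋃ q ∈ Q, Metric.closedBall q R) +
            volume (Metric.closedBall y R \ Metric.closedBall x R) :=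
          (measure_mono hsub).trans (measure_union_le _ _)
      _ ≤ ENNReal.ofReal (Real.pi * R ^ 2 + 2 * R * l) + ENNReal.ofReal (2 * R * dist x y) :=
          add_le_add ih (disc_shift x y R)
      _ = ENNReal.ofReal (Real.pi * R ^ 2 + 2 * R * (l + dist x y)) := by
          rw [← ENNReal.ofReal_add (by positivity) (by positivity)]
          congr 1; ring

section chain

variable {W : Set ℂ} {U : ℕ → Set ℂ} {d : ℕ → ℝ} {δ : ℝ}

/-- the layers around a set of indices -/
def layer (W : Set ℂ) (U : ℕ → Set ℂ) (S : Finset ℕ) : ℕ → Set ℕ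
  | 0 => (S : Set ℕ)
  | k + 1 => layer W U S k ∪ {v | ∃ u ∈ layer W U S k, (W ∩ (U u ∩ U v)).Nonempty}

lemma layer_mono (S : Finset ℕ) : Monotone (layer W U S) :=
  monotone_nat_of_le_succ fun _ => subset_union_left

/-- every index whose set meets `W` is in some layer -/
lemma exists_layer (hW : IsPreconnected W) (hU : ∀ n, IsOpen (U n)) (hcov : W ⊆ ⋃ n, U n)
    {S : Finset ℕ} {n₀ : ℕ} (hn₀ : n₀ ∈ S) (hn₀W : (W ∩ U n₀).Nonempty) {n : ℕ}
    (hn : (W ∩ U n).Nonempty) : ∃ k, n ∈ layer W U S k := by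
  by_contra hcon
  push Not at hcon
  set X : Set ℕ := ⋃ k, layer W U S k with hX
  have hnX : n ∉ X := by
    rw [hX, mem_iUnion]
    push Not
    exact hcon
  have h := hW (⋃ m ∈ X, U m) (⋃ m ∈ Xᶜ, U m) (isOpen_biUnion fun m _ => hU m)
    (isOpen_biUnion fun m _ => hU m) (by
      intro w hw
      obtain ⟨m, hm⟩ := mem_iUnion.1 (hcov hw)
      by_cases hmX : m ∈ X
      · exact Or.inl (mem_biUnion hmX hm)
      · exact Or.inr (mem_biUnion (show m ∈ Xᶜ from hmX) hm))
    (by
      obtain ⟨w, hw, hw2⟩ := hn₀W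
      exact ⟨w, hw, mem_biUnion (mem_iUnion.2 ⟨0, hn₀⟩) hw2⟩)
    (by
      obtain ⟨w, hw, hw2⟩ := hn
      exact ⟨w, hw, mem_biUnion (show n ∈ Xᶜ from hnX) hw2⟩)
  obtain ⟨w, hw, h1, h2⟩ := h
  rw [mem_iUnion₂] at h1 h2
  obtain ⟨m, hm, hwm⟩ := h1
  obtain ⟨m', hm', hwm'⟩ := h2
  apply hm'
  obtain ⟨k, hk⟩ := mem_iUnion.1 hm
  exact mem_iUnion.2 ⟨k + 1, Or.inr ⟨m, hk, w, hw, hwm, hwm'⟩⟩

/-- the state of the construction: a net which meets all sets of the indices in `S` -/
def State (U : ℕ → Set ℂ) (P : Finset ℂ) (S : Finset ℕ) (b : ℝ) : Prop :=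
  ∃ (Q : Finset ℂ) (l : ℝ), Net Q l ∧ P ⊆ Q ∧ (∀ m ∈ S, ∃ q ∈ Q, q ∈ U m) ∧ l ≤ b

/-- a state with a tip at the index `m`, which has not been charged -/
def Tip (U : ℕ → Set ℂ) (P : Finset ℂ) (S : Finset ℕ) (m : ℕ) (b : ℝ) : Prop :=
  ∃ (Q : Finset ℂ) (l : ℝ) (x : ℂ), Net Q l ∧ P ⊆ Q ∧ (∀ m' ∈ S, ∃ q ∈ Q, q ∈ U m') ∧ l ≤ b ∧
    x ∈ Q ∧ x ∈ U m

lemma tip_of_layer (hd : ∀ n, ∀ x ∈ U n, ∀ y ∈ U n, dist x y ≤ d n) (hδ : ∀ n, d n ≤ δ)
    (P : Finset ℂ) (S : Finset ℕ) (b : ℝ) (hS : State U P S (∑ m ∈ S, d m + b)) :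
    ∀ k n, n ∈ layer W U S (k + 1) → n ∉ layer W U S k →
      ∃ S' : Finset ℕ, S ⊆ S' ∧ (S' : Set ℕ) ⊆ layer W U S k ∧
        Tip U P S' n (∑ m ∈ S', d m + b + δ) := by
  intro k
  induction k with
  | zero =>
    intro n hn hn0
    rcases hn with hn | ⟨u, hu, w, -, hwu, hwn⟩
    · exact absurd hn hn0
    · obtain ⟨Q, l, hQ, hPQ, hSQ, hl⟩ := hS
      obtain ⟨q, hq, hqu⟩ := hSQ u hu
      refine ⟨S, Finset.Subset.refl S, fun _ h => h, insert w Q, l + dist q w, w, Net.step Q l q w hQ hq,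
        hPQ.trans (Finset.subset_insert _ _), ?_, ?_, Finset.mem_insert_self _ _, hwn⟩
      · intro m' hm'
        obtain ⟨q', hq', h⟩ := hSQ m' hm'
        exact ⟨q', Finset.mem_insert_of_mem hq', h⟩
      · have := hd u q hqu w hwu
        have := hδ u
        linarith
  | succ k ih =>
    intro n hn hn0
    rcases hn with hn | ⟨u, hu, w, hwW, hwu, hwn⟩
    · exact absurd hn hn0
    · have hu0 : u ∉ layer W U S k := by
        intro h
        exact hn0 (Or.inr ⟨u, h, w, hwW, hwu, hwn⟩)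
      obtain ⟨S', hSS', hS'k, Q, l, x, hQ, hPQ, hSQ, hl, hxQ, hxu⟩ := ih u hu hu0
      have huS' : u ∉ S' := fun h => hu0 (hS'k h)
      refine ⟨insert u S', hSS'.trans (Finset.subset_insert _ _), ?_, insert w Q, l + dist x w, w,
        Net.step Q l x w hQ hxQ, hPQ.trans (Finset.subset_insert _ _), ?_, ?_,
        Finset.mem_insert_self _ _, hwn⟩
      · intro m hm
        rw [Finset.coe_insert] at hm
        rcases hm with rfl | hm
        · exact hu
        · exact layer_mono S (Nat.le_succ k) (hS'k hm)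
      · intro m' hm'
        rcases Finset.mem_insert.1 hm' with rfl | hm'
        · exact ⟨x, Finset.mem_insert_of_mem hxQ, hxu⟩
        · obtain ⟨q', hq', h⟩ := hSQ m' hm'
          exact ⟨q', Finset.mem_insert_of_mem hq', h⟩
      · rw [Finset.sum_insert huS']
        have := hd u x hxu w hwu
        linarith

/-- adding one point -/
lemma add_point (hW : IsPreconnected W) (hU : ∀ n, IsOpen (U n)) (hcov : W ⊆ ⋃ n, U n)
    (hd : ∀ n, ∀ x ∈ U n, ∀ y ∈ U n, dist x y ≤ d n) (hδ : ∀ n, d n ≤ δ)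
    (P : Finset ℂ) (S : Finset ℕ) (b : ℝ) (hS : State U P S (∑ m ∈ S, d m + b))
    {n₀ : ℕ} (hn₀ : n₀ ∈ S) (hn₀W : (W ∩ U n₀).Nonempty) {w : ℂ} (hw : w ∈ W) :
    ∃ S' : Finset ℕ, S ⊆ S' ∧ State U (insert w P) S' (∑ m ∈ S', d m + (b + δ)) := by
  classical
  obtain ⟨n, hn⟩ := mem_iUnion.1 (hcov hw)
  have hex := exists_layer hW hU hcov hn₀ hn₀W ⟨w, hw, hn⟩
  rcases Nat.eq_zero_or_pos (Nat.find hex) with h0 | h0
  · have hnS : n ∈ S := by
      have := Nat.find_spec hex
      rw [h0] at this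
      exact this
    obtain ⟨Q, l, hQ, hPQ, hSQ, hl⟩ := hS
    obtain ⟨q, hq, hqn⟩ := hSQ n hnS
    refine ⟨S, Finset.Subset.refl S, insert w Q, l + dist q w, Net.step Q l q w hQ hq,
      Finset.insert_subset_insert _ hPQ, ?_, ?_⟩
    · intro m' hm'
      obtain ⟨q', hq', h⟩ := hSQ m' hm'
      exact ⟨q', Finset.mem_insert_of_mem hq', h⟩
    · have := hd n q hqn w hn
      have := hδ n
      linarith
  · obtain ⟨k, hk⟩ : ∃ k, Nat.find hex = k + 1 := ⟨Nat.find hex - 1, by omega⟩
    have h1 : n ∈ layer W U S (k + 1) := by rw [← hk]; exact Nat.find_spec hex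
    have h2 : n ∉ layer W U S k := Nat.find_min hex (by omega)
    obtain ⟨S', hSS', hS'k, Q, l, x, hQ, hPQ, hSQ, hl, hxQ, hxu⟩ :=
      tip_of_layer (W := W) hd hδ P S b hS k n h1 h2
    have hnS' : n ∉ S' := fun h => h2 (hS'k h)
    refine ⟨insert n S', hSS'.trans (Finset.subset_insert _ _), insert w Q, l + dist x w,
      Net.step Q l x w hQ hxQ, Finset.insert_subset_insert _ hPQ, ?_, ?_⟩
    · intro m' hm'
      rcases Finset.mem_insert.1 hm' with rfl | hm'
      · exact ⟨x, Finset.mem_insert_of_mem hxQ, hxu⟩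
      · obtain ⟨q', hq', h⟩ := hSQ m' hm'
        exact ⟨q', Finset.mem_insert_of_mem hq', h⟩
    · rw [Finset.sum_insert hnS']
      have := hd n x hxu w hn
      linarith

/-- the net through finitely many points of `W` -/
lemma exists_net (hW : IsPreconnected W) (hU : ∀ n, IsOpen (U n)) (hcov : W ⊆ ⋃ n, U n)
    (hd : ∀ n, ∀ x ∈ U n, ∀ y ∈ U n, dist x y ≤ d n) (hδ : ∀ n, d n ≤ δ) {w₀ : ℂ} (hw₀ : w₀ ∈ W)
    (hd0 : ∀ n, 0 ≤ d n) (P : Finset ℂ) (hP : (P : Set ℂ) ⊆ W) :
    ∃ S : Finset ℕ, (∃ n₀ ∈ S, (W ∩ U n₀).Nonempty) ∧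
      State U (insert w₀ P) S (∑ m ∈ S, d m + P.card * δ) := by
  classical
  induction P using Finset.induction_on with
  | empty =>
    obtain ⟨n, hn⟩ := mem_iUnion.1 (hcov hw₀)
    refine ⟨{n}, ⟨n, by simp, w₀, hw₀, hn⟩, {w₀}, 0, Net.base w₀, by simp, ?_, ?_⟩
    · intro m hm
      rw [Finset.mem_singleton] at hm
      subst hm
      exact ⟨w₀, by simp, hn⟩
    · simp [hd0 n]
  | insert w P hwP ih =>
    obtain ⟨S, ⟨n₀, hn₀, hn₀W⟩, hS⟩ := ih (fun x hx => hP (by simp [hx]))
    obtain ⟨S', hSS', hS'⟩ := add_point hW hU hcov hd hδ (insert w₀ P) S (P.card * δ) hS hn₀ hn₀W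
      (w := w) (hP (by simp))
    refine ⟨S', ⟨n₀, hSS' hn₀, hn₀W⟩, ?_⟩
    rw [Finset.card_insert_of_notMem hwP]
    have e : insert w₀ (insert w P) = insert w (insert w₀ P) := Finset.insert_comm _ _ _
    rw [e]
    push_cast
    have e2 : ((P.card : ℝ) + 1) * δ = P.card * δ + δ := by ring
    rw [e2]
    exact hS'

end chain

/-- the estimate with an error term -/
lemma area_eps {W : Set ℂ} (hWc : IsCompact W) (hconn : IsPreconnected W) {w₀ : ℂ} (hw₀ : w₀ ∈ W)
    {r : ℝ} (hr : 0 ≤ r) (hfin : μH[1] W ≠ ⊤) {ε : ℝ} (hε : 0 < ε) :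
    volume (Metric.cthickening r W) ≤
      ENNReal.ofReal (Real.pi * (r + ε) ^ 2 + 2 * (r + ε) * ((μH[1] W).toReal + 3 * ε)) := by
  classical
  obtain ⟨t₀, ht₀W, ht₀f, ht₀c⟩ := hWc.finite_cover_balls hε
  set P : Finset ℂ := ht₀f.toFinset with hP
  have hPW : (P : Set ℂ) ⊆ W := by rw [hP, Set.Finite.coe_toFinset]; exact ht₀W
  set δ : ℝ := ε / (P.card + 1) with hδ
  have hδ0 : 0 < δ := by positivity
  have hPδ : P.card * δ ≤ ε := by
    rw [hδ, mul_div_assoc', div_le_iff₀ (by positivity)]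
    nlinarith
  have hδε : δ ≤ ε := by
    rw [hδ]
    exact div_le_self hε.le (by linarith [(Nat.cast_nonneg P.card : (0:ℝ) ≤ P.card)])
  -- the covering
  obtain ⟨t, htc, htd, hts⟩ : ∃ t : ℕ → Set ℂ, W ⊆ ⋃ n, t n ∧ (∀ n, Metric.ediam (t n) ≤ ENNReal.ofReal (δ / 2)) ∧
      ∑' n, ⨆ _ : (t n).Nonempty, Metric.ediam (t n) ^ (1:ℝ) < μH[1] W + ENNReal.ofReal ε := by
    have h1 : μH[1] W < μH[1] W + ENNReal.ofReal ε :=
      ENNReal.lt_add_right hfin (ENNReal.ofReal_pos.2 hε).ne'
    have h2 : (⨅ (t : ℕ → Set ℂ) (_ : W ⊆ ⋃ n, t n) (_ : ∀ n, Metric.ediam (t n) ≤ ENNReal.ofReal (δ / 2)),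
          ∑' n, ⨆ _ : (t n).Nonempty, Metric.ediam (t n) ^ (1:ℝ)) ≤ μH[1] W := by
      rw [Measure.hausdorffMeasure_apply]
      exact le_iSup₂_of_le (ENNReal.ofReal (δ / 2)) (ENNReal.ofReal_pos.2 (by positivity)) le_rfl
    have h3 := h2.trans_lt h1
    simp only [iInf_lt_iff] at h3
    obtain ⟨t, h4, h5, h6⟩ := h3
    exact ⟨t, h4, h5, h6⟩
  set ρ : ℕ → ℝ := fun n => δ / 8 * (1 / 2) ^ n with hρ
  have hρ0 : ∀ n, 0 < ρ n := fun n => by positivity
  have hρδ : ∀ n, ρ n ≤ δ / 8 := fun n => by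
    rw [hρ]
    exact mul_le_of_le_one_right (by positivity) (pow_le_one₀ (by norm_num) (by norm_num))
  set U : ℕ → Set ℂ := fun n => Metric.thickening (ρ n) (t n) with hU
  set d : ℕ → ℝ := fun n => (Metric.ediam (t n)).toReal + 2 * ρ n with hd
  have htd' : ∀ n, Metric.ediam (t n) ≠ ⊤ := fun n => ((htd n).trans_lt ENNReal.ofReal_lt_top).ne
  have hdle : ∀ n, d n ≤ δ := by
    intro n
    have h1 : (Metric.ediam (t n)).toReal ≤ δ / 2 := ENNReal.toReal_le_of_le_ofReal (by positivity) (htd n)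
    have h2 := hρδ n
    rw [hd]
    simp only
    linarith
  have hd0 : ∀ n, 0 ≤ d n := fun n => add_nonneg ENNReal.toReal_nonneg (by linarith [hρ0 n])
  have hdist : ∀ n, ∀ x ∈ U n, ∀ y ∈ U n, dist x y ≤ d n := by
    intro n x hx y hy
    rw [hU] at hx hy
    simp only [Metric.mem_thickening_iff] at hx hy
    obtain ⟨x', hx', h1⟩ := hx
    obtain ⟨y', hy', h2⟩ := hy
    have h3 : dist x' y' ≤ (Metric.ediam (t n)).toReal := by
      rw [dist_edist]
      exact ENNReal.toReal_mono (htd' n) (Metric.edist_le_ediam_of_mem hx' hy')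
    have h4 := dist_triangle4 x x' y' y
    rw [dist_comm y' y] at h4
    rw [hd]
    simp only
    linarith
  have hUo : ∀ n, IsOpen (U n) := fun n => Metric.isOpen_thickening
  have hcov : W ⊆ ⋃ n, U n := htc.trans (iUnion_mono fun n => Metric.self_subset_thickening (hρ0 n) _)
  obtain ⟨S, -, Q, l, hQ, hPQ, -, hl⟩ := exists_net hconn hUo hcov hdist hdle hw₀ hd0 P hPW
  -- the sum
  have hsum : ∑ m ∈ S, d m ≤ (μH[1] W).toReal + 2 * ε := by
    have h1 : ∑ m ∈ S, (Metric.ediam (t m)).toReal ≤ (μH[1] W).toReal + ε := by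
      have h2 : ∑ m ∈ S, Metric.ediam (t m) ≤ μH[1] W + ENNReal.ofReal ε := by
        calc ∑ m ∈ S, Metric.ediam (t m) ≤ ∑ m ∈ S, ⨆ _ : (t m).Nonempty, Metric.ediam (t m) ^ (1:ℝ) := by
              apply Finset.sum_le_sum
              intro m _
              rcases (t m).eq_empty_or_nonempty with h | h
              · rw [h]; simp
              · rw [ciSup_pos h, ENNReal.rpow_one]
          _ ≤ ∑' n, ⨆ _ : (t n).Nonempty, Metric.ediam (t n) ^ (1:ℝ) := ENNReal.sum_le_tsum _
          _ ≤ _ := hts.le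
      have h3 := ENNReal.toReal_mono (ENNReal.add_ne_top.2 ⟨hfin, ENNReal.ofReal_ne_top⟩) h2
      rw [ENNReal.toReal_sum (fun m _ => htd' m), ENNReal.toReal_add hfin ENNReal.ofReal_ne_top,
        ENNReal.toReal_ofReal hε.le] at h3
      exact h3
    have h2 : ∑ m ∈ S, 2 * ρ m ≤ ε := by
      have hs : HasSum (fun n : ℕ => 2 * (δ / 8 * (1 / 2 : ℝ) ^ n)) (2 * (δ / 8 * 2)) :=
        (hasSum_geometric_two.mul_left (δ / 8)).mul_left 2
      have := sum_le_hasSum S (fun n _ => by positivity) hs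
      calc ∑ m ∈ S, 2 * ρ m ≤ 2 * (δ / 8 * 2) := this
        _ ≤ ε := by linarith
    rw [hd]
    simp only
    rw [Finset.sum_add_distrib]
    linarith
  have hl' : l ≤ (μH[1] W).toReal + 3 * ε := by linarith
  have hcover : Metric.cthickening r W ⊆ ⋃ q ∈ Q, Metric.closedBall q (r + ε) := by
    rw [hWc.cthickening_eq_biUnion_closedBall hr]
    intro x hx
    rw [mem_iUnion₂] at hx
    obtain ⟨w, hw, hxw⟩ := hx
    have h1 := ht₀c hw
    rw [mem_iUnion₂] at h1
    obtain ⟨p, hp, hwp⟩ := h1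
    have hpQ : p ∈ Q := hPQ (Finset.mem_insert_of_mem (by rw [hP, Set.Finite.mem_toFinset]; exact hp))
    refine mem_biUnion (s := (Q : Set ℂ)) hpQ ?_
    rw [Metric.mem_closedBall] at hxw ⊢
    rw [Metric.mem_ball] at hwp
    linarith [dist_triangle x w p]
  refine (measure_mono hcover).trans ((hQ.volume_le (by linarith)).trans (ENNReal.ofReal_le_ofReal ?_))
  have : 0 ≤ r + ε := by linarith
  have := mul_le_mul_of_nonneg_left hl' (by linarith : 0 ≤ 2 * (r + ε))
  linarith

/-- **The area of a neighbourhood of a connected set.** -/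
theorem area_le {W : Set ℂ} (hWc : IsCompact W) (hconn : IsConnected W) {r : ℝ} (hr : 0 < r) :
    volume (Metric.cthickening r W) ≤
      ENNReal.ofReal (2 * r) * μH[1] W + ENNReal.ofReal (Real.pi * r ^ 2) := by
  obtain ⟨w₀, hw₀⟩ := hconn.nonempty
  by_cases hfin : μH[1] W = ⊤
  · rw [hfin, ENNReal.mul_top (ENNReal.ofReal_pos.2 (by positivity)).ne', top_add]
    exact le_top
  have h1 : ∀ ε : ℝ, 0 < ε → volume (Metric.cthickening r W) ≤
      ENNReal.ofReal (Real.pi * (r + ε) ^ 2 + 2 * (r + ε) * ((μH[1] W).toReal + 3 * ε)) :=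
    fun ε hε => area_eps hWc hconn.isPreconnected hw₀ hr.le hfin hε
  have hlim : Tendsto (fun ε : ℝ => ENNReal.ofReal
      (Real.pi * (r + ε) ^ 2 + 2 * (r + ε) * ((μH[1] W).toReal + 3 * ε))) (𝓝[>] 0)
      (𝓝 (ENNReal.ofReal (Real.pi * (r + 0) ^ 2 + 2 * (r + 0) * ((μH[1] W).toReal + 3 * 0)))) := by
    apply ENNReal.tendsto_ofReal
    apply Tendsto.mono_left _ nhdsWithin_le_nhds
    have : Continuous fun ε : ℝ => Real.pi * (r + ε) ^ 2 + 2 * (r + ε) * ((μH[1] W).toReal + 3 * ε) := by
      fun_prop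
    exact this.tendsto 0
  have h2 := ge_of_tendsto hlim (by
    filter_upwards [self_mem_nhdsWithin] with ε hε
    exact h1 ε hε)
  refine h2.trans (le_of_eq ?_)
  rw [add_zero, mul_zero, add_zero, add_comm, ENNReal.ofReal_add (by positivity) (by positivity),
    ENNReal.ofReal_mul (by positivity : (0:ℝ) ≤ 2 * r), ENNReal.ofReal_toReal hfin]

end Pool.Agent.W2helper83.MD
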