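import Pool.Agent.W2helper83.MD.KSet

/-!
# The curve

`θ' = κ` on the fat Cantor set `K` and `θ' = 0` elsewhere, `γ' = exp (i θ)`; the constant `κ` is such that
`θ (s + 1) = θ s + π`, so that `γ (s + 1) = - γ s` after a translation.
-/

set_option autoImplicit false

open MeasureTheory Set Filter Topology

namespace Pool.Agent.W2helper83.MD

namespace FatCantor

variable (F : FatCantor)

/-- indicator function of `K` -/
noncomputable def ind : ℝ → ℝ := F.K.indicator 1

lemma ind_nonneg (x : ℝ) : 0 ≤ F.ind x := indicator_nonneg (fun _ _ => zero_le_one) x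

lemma ind_le_one (x : ℝ) : F.ind x ≤ 1 := by
  unfold ind
  by_cases h : x ∈ F.K
  · simp [h]
  · simp [h]

lemma ind_of_mem {x : ℝ} (h : x ∈ F.K) : F.ind x = 1 := by simp [ind, h]
lemma ind_of_notMem {x : ℝ} (h : x ∉ F.K) : F.ind x = 0 := by simp [ind, h]

lemma ind_per (x : ℝ) : F.ind (x + 1) = F.ind x := by
  by_cases h : x ∈ F.K
  · rw [F.ind_of_mem h, F.ind_of_mem ((F.per x).2 h)]
  · rw [F.ind_of_notMem h, F.ind_of_notMem (fun h2 => h ((F.per x).1 h2))]

lemma measurable_ind : Measurable F.ind := measurable_one.indicator F.closed.measurableSet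

lemma locInt : LocallyIntegrable F.ind volume := by
  rw [locallyIntegrable_iff]
  intro k hk
  have h : IntegrableOn (fun _ : ℝ => (1 : ℝ)) k volume := by
    rw [integrableOn_const_iff]
    exact Or.inr hk.measure_lt_top
  exact Integrable.indicator (f := fun _ : ℝ => (1:ℝ)) h F.closed.measurableSet

lemma intervalInt (a b : ℝ) : IntervalIntegrable F.ind volume a b :=
  intervalIntegrable_iff.mpr <|
      (F.locInt.integrableOn_isCompact isCompact_uIcc).mono_set uIoc_subset_uIcc

/-- the measure of `K` in one period -/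
noncomputable def c : ℝ := ∫ u in (0:ℝ)..1, F.ind u

lemma integral_ind {a b : ℝ} (hab : a ≤ b) : ∫ u in a..b, F.ind u = (volume (F.K ∩ Ioc a b)).toReal := by
  rw [intervalIntegral.integral_of_le hab]
  unfold ind
  rw [integral_indicator F.closed.measurableSet, Measure.restrict_restrict F.closed.measurableSet]
  simp [Measure.real]

lemma vol_ne_top (a b : ℝ) : volume (F.K ∩ Ioc a b) ≠ ⊤ :=
  ((measure_mono inter_subset_right).trans_lt measure_Ioc_lt_top).ne

lemma c_ge : 9 / 10 ≤ F.c := by
  unfold c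
  rw [F.integral_ind zero_le_one]
  have := ENNReal.toReal_mono (F.vol_ne_top 0 1) F.big
  rwa [ENNReal.toReal_ofReal (by norm_num)] at this

lemma c_pos : 0 < F.c := by linarith [F.c_ge]

lemma c_le : F.c ≤ 1 := by
  unfold c
  calc ∫ u in (0:ℝ)..1, F.ind u ≤ ∫ u in (0:ℝ)..1, (1:ℝ) :=
        intervalIntegral.integral_mono_on zero_le_one (F.intervalInt _ _) (by simp)
          (fun x _ => F.ind_le_one x)
    _ = 1 := by simp

/-- curvature on `K` -/
noncomputable def kap : ℝ := Real.pi / F.c

lemma kap_pos : 0 < F.kap := div_pos Real.pi_pos F.c_pos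

lemma kap_lt : F.kap < 4 := by
  unfold kap
  rw [div_lt_iff₀ F.c_pos]
  have := F.c_ge
  have := Real.pi_lt_d2
  linarith

/-- the direction angle -/
noncomputable def th (s : ℝ) : ℝ := F.kap * ∫ u in (0:ℝ)..s, F.ind u

lemma th_sub (a b : ℝ) : F.th b - F.th a = F.kap * ∫ u in a..b, F.ind u := by
  unfold th
  rw [← mul_sub, intervalIntegral.integral_interval_sub_left (F.intervalInt _ _) (F.intervalInt _ _)]

lemma th_mono : Monotone F.th := by
  intro a b hab
  rw [← sub_nonneg, F.th_sub]
  exact mul_nonneg F.kap_pos.le (intervalIntegral.integral_nonneg hab fun u _ => F.ind_nonneg u)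

lemma th_lip {a b : ℝ} (hab : a ≤ b) : F.th b - F.th a ≤ F.kap * (b - a) := by
  rw [F.th_sub]
  refine mul_le_mul_of_nonneg_left ?_ F.kap_pos.le
  calc ∫ u in a..b, F.ind u ≤ ∫ u in a..b, (1:ℝ) :=
        intervalIntegral.integral_mono_on hab (F.intervalInt _ _) (by simp)
          (fun x _ => F.ind_le_one x)
    _ = b - a := by simp

lemma th_lipW : LipschitzWith ⟨F.kap, F.kap_pos.le⟩ F.th := by
  apply LipschitzWith.of_dist_le_mul
  intro x y
  rw [Real.dist_eq, Real.dist_eq]
  show |F.th x - F.th y| ≤ F.kap * |x - y|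
  rcases le_total x y with h | h
  · rw [abs_sub_comm, abs_of_nonneg (sub_nonneg.2 (F.th_mono h)), abs_sub_comm,
      abs_of_nonneg (sub_nonneg.2 h)]
    exact F.th_lip h
  · rw [abs_of_nonneg (sub_nonneg.2 (F.th_mono h)), abs_of_nonneg (sub_nonneg.2 h)]
    exact F.th_lip h

lemma th_cont : Continuous F.th := F.th_lipW.continuous

lemma th_add_one (s : ℝ) : F.th (s + 1) = F.th s + Real.pi := by
  have hp : Function.Periodic F.ind 1 := fun x => F.ind_per x
  have h1 : F.th (s + 1) - F.th s = F.kap * ∫ u in (0:ℝ)..1, F.ind u := by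
    rw [F.th_sub]
    have := hp.intervalIntegral_add_eq s 0
    rw [zero_add] at this
    rw [this]
  have h2 : F.kap * ∫ u in (0:ℝ)..1, F.ind u = Real.pi := by
    have : (∫ u in (0:ℝ)..1, F.ind u) = F.c := rfl
    rw [this]
    unfold kap
    field_simp [F.c_pos.ne']
  linarith

lemma th_pi_le {a b : ℝ} (hb : b ≤ a + 1) : F.th b - F.th a ≤ Real.pi := by
  have := F.th_mono hb
  rw [F.th_add_one] at this
  linarith

/-- `θ` is constant on intervals which do not meet `K` -/
lemma th_const {a b : ℝ} (hab : a ≤ b) (h : ∀ x ∈ Ioo a b, x ∉ F.K) : F.th b = F.th a := by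
  have h1 : ∫ u in a..b, F.ind u = 0 := by
    rw [F.integral_ind hab]
    have : volume (F.K ∩ Ioc a b) = 0 := by
      apply measure_mono_null (t := {b})
      · rintro x ⟨hx, hx1, hx2⟩
        rcases lt_or_eq_of_le hx2 with h3 | h3
        · exact absurd hx (h x ⟨hx1, h3⟩)
        · exact h3
      · exact measure_singleton b
    rw [this]; rfl
  have := F.th_sub a b
  rw [h1, mul_zero] at this
  linarith

/-- `θ` increases across points of `K` -/
lemma th_lt {a b x : ℝ} (hx : x ∈ F.K) (ha : a < x) (hb : x < b) : F.th a < F.th b := by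
  have h1 : 0 < ∫ u in a..b, F.ind u := by
    rw [F.integral_ind (ha.trans hb).le]
    apply ENNReal.toReal_pos _ (F.vol_ne_top a b)
    have := F.pos x hx a b ha hb
    exact (this.trans_le (measure_mono (inter_subset_inter_right _ Ioo_subset_Ioc_self))).ne'
  have := F.th_sub a b
  have h2 := mul_pos F.kap_pos h1
  linarith

/-- the unit tangent vector -/
noncomputable def ta (s : ℝ) : ℂ := Complex.exp (F.th s * Complex.I)

lemma ta_cont : Continuous F.ta := by
  unfold ta
  exact Complex.continuous_exp.comp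
    ((Complex.continuous_ofReal.comp F.th_cont).mul continuous_const)

lemma norm_ta (s : ℝ) : ‖F.ta s‖ = 1 := Complex.norm_exp_ofReal_mul_I _

lemma ta_add_one (s : ℝ) : F.ta (s + 1) = - F.ta s := by
  unfold ta
  rw [F.th_add_one]
  push_cast
  rw [add_mul, Complex.exp_add, Complex.exp_pi_mul_I]
  ring

/-- the curve -/
noncomputable def ga (s : ℝ) : ℂ :=
  -(1 / 2 : ℂ) * (∫ u in (0:ℝ)..1, F.ta u) + ∫ u in (0:ℝ)..s, F.ta u

lemma ga_deriv (s : ℝ) : HasDerivAt F.ga (F.ta s) s := by
  unfold ga
  apply HasDerivAt.const_add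
  exact intervalIntegral.integral_hasDerivAt_right (F.ta_cont.intervalIntegrable _ _)
    (F.ta_cont.stronglyMeasurableAtFilter _ _) F.ta_cont.continuousAt

lemma ga_cont : Continuous F.ga := by
  rw [continuous_iff_continuousAt]
  exact fun s => (F.ga_deriv s).continuousAt

lemma ga_sub (a b : ℝ) : F.ga b - F.ga a = ∫ u in a..b, F.ta u := by
  unfold ga
  rw [add_sub_add_left_eq_sub, intervalIntegral.integral_interval_sub_left
    (F.ta_cont.intervalIntegrable _ _) (F.ta_cont.intervalIntegrable _ _)]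

lemma ga_lip : LipschitzWith 1 F.ga := by
  apply lipschitzWith_of_nnnorm_deriv_le (fun s => (F.ga_deriv s).differentiableAt)
  intro s
  rw [(F.ga_deriv s).deriv]
  have := F.norm_ta s
  rw [← NNReal.coe_le_coe, coe_nnnorm, this]
  simp

lemma ga_add_one (s : ℝ) : F.ga (s + 1) = - F.ga s := by
  have h1 : ∫ u in (1:ℝ)..(s+1), F.ta u = - ∫ u in (0:ℝ)..s, F.ta u := by
    have := intervalIntegral.integral_comp_add_right (a := 0) (b := s) (fun u => F.ta u) 1
    rw [zero_add] at this
    rw [← this]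
    rw [← intervalIntegral.integral_neg]
    apply intervalIntegral.integral_congr
    intro u _
    exact F.ta_add_one u
  have h2 := intervalIntegral.integral_add_adjacent_intervals
    (F.ta_cont.intervalIntegrable (μ := volume) 0 1) (F.ta_cont.intervalIntegrable 1 (s+1))
  unfold ga
  rw [← h2, h1]
  ring

lemma ta_add_two (s : ℝ) : F.ta (s + 2) = F.ta s := by
  have : s + 2 = s + 1 + 1 := by ring
  rw [this, F.ta_add_one, F.ta_add_one, neg_neg]

lemma ga_add_two (s : ℝ) : F.ga (s + 2) = F.ga s := by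
  have : s + 2 = s + 1 + 1 := by ring
  rw [this, F.ga_add_one, F.ga_add_one, neg_neg]

lemma per_two (s : ℝ) : s + 2 ∈ F.K ↔ s ∈ F.K := by
  have : s + 2 = s + 1 + 1 := by ring
  rw [this, F.per, F.per]

/-- the tube coordinates -/
noncomputable def Ph (s t : ℝ) : ℂ := F.ga s + (t * Complex.I) * F.ta s

lemma Ph_add_two (s t : ℝ) : F.Ph (s + 2) t = F.Ph s t := by
  unfold Ph; rw [F.ga_add_two, F.ta_add_two]

lemma Ph_add_int (s t : ℝ) (n : ℤ) : F.Ph (s + 2 * n) t = F.Ph s t := by
  induction n using Int.induction_on with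
  | zero => rw [Int.cast_zero, mul_zero, add_zero]
  | succ k ih =>
    have : s + 2 * ((k + 1 : ℤ) : ℝ) = (s + 2 * ((k : ℤ) : ℝ)) + 2 := by push_cast; ring
    rw [this, F.Ph_add_two, ih]
  | pred k ih =>
    have : s + 2 * ((-(k:ℤ) - 1 : ℤ) : ℝ) + 2 = (s + 2 * ((-(k : ℤ) : ℤ) : ℝ)) := by push_cast; ring
    rw [← F.Ph_add_two, this, ih]

lemma per_int (s : ℝ) (n : ℤ) : s + 2 * n ∈ F.K ↔ s ∈ F.K := by
  induction n using Int.induction_on with
  | zero => rw [Int.cast_zero, mul_zero, add_zero]
  | succ k ih =>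
    have : s + 2 * ((k + 1 : ℤ) : ℝ) = (s + 2 * ((k : ℤ) : ℝ)) + 2 := by push_cast; ring
    rw [this, F.per_two, ih]
  | pred k ih =>
    have : s + 2 * ((-(k:ℤ) - 1 : ℤ) : ℝ) + 2 = (s + 2 * ((-(k : ℤ) : ℤ) : ℝ)) := by push_cast; ring
    rw [← F.per_two, this, ih]

lemma Ph_zero (s : ℝ) : F.Ph s 0 = F.ga s := by simp [Ph]

lemma ga_add_int (s : ℝ) (n : ℤ) : F.ga (s + 2 * n) = F.ga s := by
  rw [← F.Ph_zero, F.Ph_add_int, F.Ph_zero]

/-- the key inequality -/
lemma sin_le_integral {a b ψ : ℝ} (hab : a ≤ b) (h1 : ∀ u ∈ Icc a b, |F.th u - ψ| ≤ Real.pi / 2) :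
    Real.sin (F.th b - ψ) - Real.sin (F.th a - ψ) ≤ F.kap * ∫ u in a..b, Real.cos (F.th u - ψ) := by
  have hc : Continuous fun u => Real.cos (F.th u - ψ) := by
    have := F.th_cont
    fun_prop
  have key := image_le_of_liminf_slope_right_le_deriv_boundary (a := a) (b := b)
    (f := fun x => Real.sin (F.th x - ψ)) (B := fun x => Real.sin (F.th a - ψ) +
      F.kap * ∫ u in a..x, Real.cos (F.th u - ψ))
    (B' := fun x => F.kap * Real.cos (F.th x - ψ)) ?_ ?_ ?_ ?_ ?_ (right_mem_Icc.2 hab)
  · linarith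
  · have := F.th_cont
    exact Continuous.continuousOn (by fun_prop)
  · simp
  · apply Continuous.continuousOn
    apply continuous_const.add
    apply continuous_const.mul
    exact intervalIntegral.continuous_primitive (fun _ _ => hc.intervalIntegrable _ _) _
  · intro x _
    apply HasDerivAt.hasDerivWithinAt
    apply HasDerivAt.const_add
    apply HasDerivAt.const_mul
    exact intervalIntegral.integral_hasDerivAt_right (hc.intervalIntegrable _ _)
      (hc.stronglyMeasurableAtFilter _ _) hc.continuousAt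
  · intro x hx r hr
    -- for z > x close to x the slope is at most κ cos(θ(x) - ψ) + small
    apply Filter.Eventually.frequently
    have hx' : x ∈ Icc a b := ⟨hx.1, hx.2.le⟩
    have hcos : 0 ≤ Real.cos (F.th x - ψ) := by
      have := abs_le.1 (h1 x hx')
      exact Real.cos_nonneg_of_mem_Icc ⟨by linarith [this.1], this.2⟩
    -- sin b - sin a ≤ (b - a) * max cos
    have h3 : ContinuousAt (fun z => F.kap * Real.cos (F.th z - ψ)) x :=
      (continuous_const.mul hc).continuousAt
    have h4 : ∀ᶠ z in 𝓝 x, F.kap * Real.cos (F.th z - ψ) < r := h3.eventually_lt_const hr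
    obtain ⟨ε, hε, h5⟩ := Metric.eventually_nhds_iff.1 h4
    have hev : ∀ᶠ z in 𝓝[>] x, z ∈ Ioo x (min b (x + ε)) :=
      Ioo_mem_nhdsGT (lt_min hx.2 (by linarith))
    filter_upwards [hev] with z hz
    have hzb : z < b := hz.2.trans_le (min_le_left _ _)
    have hze : z < x + ε := hz.2.trans_le (min_le_right _ _)
    rw [slope_def_field, div_lt_iff₀ (sub_pos.2 hz.1)]
    -- use mean value theorem for sin between θ x and θ z
    have hm := F.th_mono hz.1.le
    rcases eq_or_lt_of_le hm with he | hlt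
    · rw [he, sub_self]
      have h6 : 0 ≤ F.kap * Real.cos (F.th x - ψ) := mul_nonneg F.kap_pos.le hcos
      exact mul_pos (h6.trans_lt hr) (sub_pos.2 hz.1)
    · obtain ⟨y, hy, hy2⟩ := exists_deriv_eq_slope (fun y => Real.sin (y - ψ)) hlt
        (by fun_prop) (by fun_prop)
      have hd : deriv (fun y => Real.sin (y - ψ)) y = Real.cos (y - ψ) := by
        have : HasDerivAt (fun y : ℝ => y - ψ) 1 y := (hasDerivAt_id y).sub_const ψ
        have h2 := this.sin
        rw [h2.deriv, mul_one]
      rw [hd] at hy2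
      have h7 : Real.sin (F.th z - ψ) - Real.sin (F.th x - ψ) =
          Real.cos (y - ψ) * (F.th z - F.th x) := by
        rw [hy2]
        field_simp [(sub_pos.2 hlt).ne']
      rw [h7]
      -- y = θ w for some w between x and z
      obtain ⟨w, hw, rfl⟩ := intermediate_value_Ioo hz.1.le F.th_cont.continuousOn hy
      have h8 : 0 ≤ Real.cos (F.th w - ψ) := by
        have hw' : w ∈ Icc a b := ⟨hx.1.trans hw.1.le, hw.2.le.trans hzb.le⟩
        have := abs_le.1 (h1 w hw')
        exact Real.cos_nonneg_of_mem_Icc ⟨by linarith [this.1], this.2⟩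
      have h9 := F.th_lip hz.1.le
      have h10 : F.kap * Real.cos (F.th w - ψ) < r := by
        apply h5
        rw [Real.dist_eq, abs_lt]
        constructor
        · linarith [hw.1]
        · linarith [hw.2]
      calc Real.cos (F.th w - ψ) * (F.th z - F.th x)
          ≤ Real.cos (F.th w - ψ) * (F.kap * (z - x)) := mul_le_mul_of_nonneg_left h9 h8
        _ = (F.kap * Real.cos (F.th w - ψ)) * (z - x) := by ring
        _ < r * (z - x) := mul_lt_mul_of_pos_right h10 (sub_pos.2 hz.1)

/-- coordinates of a difference of two points in the direction `ψ` -/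
lemma re_ga_sub (a b ψ : ℝ) : ((F.ga b - F.ga a) * Complex.exp (-(ψ * Complex.I))).re =
    ∫ u in a..b, Real.cos (F.th u - ψ) := by
  rw [F.ga_sub, ← intervalIntegral.integral_mul_const]
  have h1 : ∀ u : ℝ, F.ta u * Complex.exp (-(ψ * Complex.I)) =
      Complex.exp (((F.th u - ψ : ℝ) : ℂ) * Complex.I) := by
    intro u
    unfold ta
    rw [← Complex.exp_add]
    congr 1
    push_cast
    ring
  have h2 : ∀ u : ℝ, Real.cos (F.th u - ψ) = (F.ta u * Complex.exp (-(ψ * Complex.I))).re := by
    intro u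
    rw [h1, Complex.exp_ofReal_mul_I_re]
  simp_rw [h2]
  have hc : Continuous fun u => F.ta u * Complex.exp (-(ψ * Complex.I)) := F.ta_cont.mul continuous_const
  exact (Complex.reCLM.intervalIntegral_comp_comm (hc.intervalIntegrable a b)).symm

lemma re_normal (s t ψ : ℝ) : ((t * Complex.I) * F.ta s * Complex.exp (-(ψ * Complex.I))).re =
    - t * Real.sin (F.th s - ψ) := by
  have h1 : (t * Complex.I) * F.ta s * Complex.exp (-(ψ * Complex.I)) =
      (t * Complex.I) * Complex.exp (((F.th s - ψ : ℝ) : ℂ) * Complex.I) := by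
    unfold ta
    rw [mul_assoc, ← Complex.exp_add]
    congr 2
    push_cast
    ring
  rw [h1, Complex.exp_mul_I, ← Complex.ofReal_cos, ← Complex.ofReal_sin]
  simp only [Complex.mul_re, Complex.add_re, Complex.add_im, Complex.mul_im, Complex.ofReal_re,
    Complex.ofReal_im, Complex.I_re, Complex.I_im]
  ring

/-- injectivity of the tube coordinates for parameters at distance at most one -/
lemma inj_aux {s s' t t' : ℝ} (h0 : s < s') (h1 : s' ≤ s + 1) (ht : |t| ≤ 1 / 4) (ht' : |t'| ≤ 1 / 4)
    (h : F.Ph s t = F.Ph s' t') : False := by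
  set Δ := F.th s' - F.th s with hΔ
  have hΔ0 : 0 ≤ Δ := sub_nonneg.2 (F.th_mono h0.le)
  have hΔ1 : Δ ≤ Real.pi := F.th_pi_le h1
  set ψ := (F.th s + F.th s') / 2 with hψ
  have e1 : F.th s - ψ = -(Δ / 2) := by rw [hψ, hΔ]; ring
  have e2 : F.th s' - ψ = Δ / 2 := by rw [hψ, hΔ]; ring
  have hb : ∀ u ∈ Icc s s', |F.th u - ψ| ≤ Real.pi / 2 := by
    intro u hu
    have m1 := F.th_mono hu.1
    have m2 := F.th_mono hu.2
    rw [abs_le]
    constructor <;> linarith
  have hkey := F.sin_le_integral h0.le hb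
  have hre := F.re_ga_sub s s' ψ
  have hg : F.ga s' - F.ga s = (t * Complex.I) * F.ta s - (t' * Complex.I) * F.ta s' := by
    unfold Ph at h
    linear_combination -h
  rw [hg, sub_mul, Complex.sub_re, F.re_normal, F.re_normal, e1, e2] at hre
  rw [e1, e2] at hkey
  rw [← hre] at hkey
  rw [Real.sin_neg] at hkey hre
  have hs0 : 0 ≤ Real.sin (Δ / 2) :=
    Real.sin_nonneg_of_nonneg_of_le_pi (by linarith) (by linarith [Real.pi_pos])
  have hk := F.kap_lt
  have hk0 := F.kap_pos
  have ht1 := (abs_le.1 ht).2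
  have ht2 := (abs_le.1 ht').2
  rcases eq_or_lt_of_le hΔ0 with hd | hd
  · -- straight piece
    have hth : ∀ u ∈ Icc s s', F.th u = ψ := by
      intro u hu
      have m1 := F.th_mono hu.1
      have m2 := F.th_mono hu.2
      linarith
    have hint : ∫ u in s..s', Real.cos (F.th u - ψ) = s' - s := by
      have : ∫ u in s..s', Real.cos (F.th u - ψ) = ∫ u in s..s', (1:ℝ) := by
        apply intervalIntegral.integral_congr
        intro u hu
        rw [uIcc_of_le h0.le] at hu
        simp only
        rw [hth u hu, sub_self, Real.cos_zero]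
      rw [this]; simp
    rw [hint, ← hd] at hre
    simp at hre
    linarith
  · have hs1 : 0 < Real.sin (Δ / 2) :=
      Real.sin_pos_of_pos_of_lt_pi (by linarith) (by linarith [Real.pi_pos])
    have e3 : F.kap * (-t * -Real.sin (Δ / 2) - -t' * Real.sin (Δ / 2)) =
        (F.kap * (t + t')) * Real.sin (Δ / 2) := by ring
    rw [e3] at hkey
    have e4 : F.kap * (t + t') < 2 := by
      have : t + t' ≤ 1 / 2 := by linarith
      calc F.kap * (t + t') ≤ F.kap * (1 / 2) := mul_le_mul_of_nonneg_left this hk0.le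
        _ < 2 := by linarith
    have e5 : Real.sin (Δ / 2) - -Real.sin (Δ / 2) = 2 * Real.sin (Δ / 2) := by ring
    rw [e5] at hkey
    have := mul_lt_mul_of_pos_right e4 hs1
    linarith

/-- injectivity of the tube coordinates -/
lemma inj {s s' t t' : ℝ} (ht : |t| ≤ 1 / 4) (ht' : |t'| ≤ 1 / 4) (h : F.Ph s t = F.Ph s' t') :
    ∃ n : ℤ, s' = s + 2 * n ∧ t' = t := by
  -- reduce to a difference in (-1, 1]
  obtain ⟨n, hn1, hn2⟩ : ∃ n : ℤ, -1 < s' - s - 2 * n ∧ s' - s - 2 * n ≤ 1 := by
    refine ⟨⌈(s' - s - 1) / 2⌉, ?_, ?_⟩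
    · have := Int.ceil_lt_add_one ((s' - s - 1) / 2)
      linarith
    · have := Int.le_ceil ((s' - s - 1) / 2)
      linarith
  have h2 : F.Ph (s' + 2 * (-n : ℤ)) t' = F.Ph s t := by rw [F.Ph_add_int, h]
  push_cast at h2
  rcases lt_trichotomy s (s' + 2 * -n) with h3 | h3 | h3
  · exact (F.inj_aux h3 (by linarith) ht ht' h2.symm).elim
  · refine ⟨n, by linarith, ?_⟩
    rw [← h3] at h2
    unfold Ph at h2
    have h4 : ((t' : ℂ) - t) * (Complex.I * F.ta s) = 0 := by linear_combination h2
    rcases mul_eq_zero.1 h4 with h5 | h5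
    · exact_mod_cast sub_eq_zero.1 h5
    · exfalso
      have h6 : ‖Complex.I * F.ta s‖ = 1 := by rw [norm_mul, F.norm_ta]; simp
      rw [h5, norm_zero] at h6
      exact zero_ne_one h6
  · exact (F.inj_aux h3 (by linarith) ht' ht h2).elim

lemma ga_inj {s s' : ℝ} (h : F.ga s = F.ga s') : ∃ n : ℤ, s' = s + 2 * n := by
  obtain ⟨n, h1, -⟩ := F.inj (s := s) (s' := s') (t := 0) (t' := 0) (by simp) (by simp)
    (by rw [F.Ph_zero, F.Ph_zero, h])
  exact ⟨n, h1⟩

/-- a point close to the curve has tube coordinates -/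
lemma exists_coord {x : ℂ} {s₀ ρ : ℝ} (h : dist x (F.ga s₀) ≤ ρ) :
    ∃ s t : ℝ, x = F.Ph s t ∧ |t| ≤ ρ := by
  obtain ⟨s, hs, hmin⟩ := (isCompact_Icc (a := s₀ - 2) (b := s₀ + 2)).exists_isMinOn
    ⟨s₀, by constructor <;> linarith⟩
    (f := fun s => Complex.normSq (x - F.ga s)) (Continuous.continuousOn (by
      have := F.ga_cont
      exact Complex.continuous_normSq.comp (continuous_const.sub this)))
  -- the minimum is global
  have hglob : ∀ u, Complex.normSq (x - F.ga s) ≤ Complex.normSq (x - F.ga u) := by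
    intro u
    obtain ⟨n, hn1, hn2⟩ : ∃ n : ℤ, -1 < u - s₀ - 2 * n ∧ u - s₀ - 2 * n ≤ 1 := by
      refine ⟨⌈(u - s₀ - 1) / 2⌉, ?_, ?_⟩
      · have := Int.ceil_lt_add_one ((u - s₀ - 1) / 2)
        linarith
      · have := Int.le_ceil ((u - s₀ - 1) / 2)
        linarith
    have h1 : F.ga (u + 2 * (-n : ℤ)) = F.ga u := F.ga_add_int u (-n)
    have h2 := hmin (a := u + 2 * (-n : ℤ)) (by push_cast; constructor <;> linarith)
    simp only [mem_ofPred_eq] at h2
    rwa [h1] at h2
  have hlocal : IsLocalMin (fun u => Complex.normSq (x - F.ga u)) s :=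
    Filter.Eventually.of_forall hglob
  have hd : HasDerivAt (fun u => Complex.normSq (x - F.ga u))
      (2 * ((x - F.ga s).re * (-(F.ta s)).re + (x - F.ga s).im * (-(F.ta s)).im)) s := by
    have h1 : HasDerivAt (fun u => x - F.ga u) (-(F.ta s)) s := (F.ga_deriv s).const_sub x
    have hre : HasDerivAt (fun u => (x - F.ga u).re) ((-(F.ta s)).re) s :=
      (Complex.reCLM.hasFDerivAt.comp_hasDerivAt s h1)
    have him : HasDerivAt (fun u => (x - F.ga u).im) ((-(F.ta s)).im) s :=
      (Complex.imCLM.hasFDerivAt.comp_hasDerivAt s h1)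
    have := (hre.mul hre).add (him.mul him)
    refine (this.congr_deriv (by ring)).congr_of_eventuallyEq ?_
    filter_upwards with u
    rw [Complex.normSq_apply]
    rfl
  have h0 := hlocal.hasDerivAt_eq_zero hd
  -- x - ga s is a multiple of i * ta s
  set w := x - F.ga s with hw
  set v := F.ta s with hv
  have hv1 : v.re * v.re + v.im * v.im = 1 := by
    have := F.norm_ta s
    rw [← hv] at this
    rw [← Complex.normSq_apply, Complex.normSq_eq_norm_sq, this]; norm_num
  have hwv : w.re * v.re + w.im * v.im = 0 := by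
    simp only [Complex.neg_re, Complex.neg_im] at h0
    linarith
  have hwform : w = ((w.im * v.re - w.re * v.im : ℝ) * Complex.I) * v := by
    apply Complex.ext
    · simp only [Complex.mul_re, Complex.ofReal_re, Complex.I_re, Complex.ofReal_im, Complex.I_im,
        Complex.mul_im]
      have : w.re = w.re * (v.re * v.re + v.im * v.im) := by rw [hv1, mul_one]
      linear_combination this + v.re * hwv
    · simp only [Complex.mul_re, Complex.ofReal_re, Complex.I_re, Complex.ofReal_im, Complex.I_im,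
        Complex.mul_im]
      have : w.im = w.im * (v.re * v.re + v.im * v.im) := by rw [hv1, mul_one]
      linear_combination this + v.im * hwv
  refine ⟨s, w.im * v.re - w.re * v.im, ?_, ?_⟩
  · unfold Ph
    rw [← hv, ← hwform, hw]; ring
  · have h3 : ‖w‖ ≤ ρ := by
      have h4 := hglob s₀
      rw [Complex.normSq_eq_norm_sq, Complex.normSq_eq_norm_sq] at h4
      have h5 : ‖x - F.ga s‖ ≤ ‖x - F.ga s₀‖ := by
        exact (sq_le_sq₀ (norm_nonneg _) (norm_nonneg _)).1 h4
      rw [← dist_eq_norm x (F.ga s₀)] at h5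
      exact h5.trans h
    have h6 : ‖w‖ = |w.im * v.re - w.re * v.im| := by
      conv_lhs => rw [hwform]
      rw [norm_mul, norm_mul, Complex.norm_I, mul_one, F.norm_ta, mul_one, Complex.norm_real,
        Real.norm_eq_abs]
    rw [← h6]; exact h3

end FatCantor

end Pool.Agent.W2helper83.MD
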