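import Mathlib

/-!
# A periodic fat Cantor set

A closed set `K ⊆ ℝ`, periodic with period `1`, without interior, of measure at least `9/10` in every
period, all of whose points are points of its own measure support.
-/

set_option autoImplicit false

open MeasureTheory Set Filter Topology

namespace Pool.Agent.W2helper83.MD

/-- the data of the fat Cantor set -/
structure FatCantor where
  K : Set ℝ
  closed : IsClosed K
  per : ∀ x, x + 1 ∈ K ↔ x ∈ K
  gaps : ∀ a b : ℝ, a < b → ∃ x ∈ Ioo a b, x ∉ K
  pos : ∀ x ∈ K, ∀ a b : ℝ, a < x → x < b → 0 < volume (K ∩ Ioo a b)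
  big : ENNReal.ofReal (9 / 10) ≤ volume (K ∩ Ioc 0 1)

theorem exists_fatCantor : Nonempty FatCantor := by
  -- a small open set containing the rationals
  have hQ : volume (range ((↑) : ℚ → ℝ)) = 0 := (countable_range _).measure_zero _
  obtain ⟨V, hQV, hVo, hV⟩ : ∃ V : Set ℝ, range ((↑) : ℚ → ℝ) ⊆ V ∧ IsOpen V ∧
      volume V < ENNReal.ofReal (1 / 10) := by
    apply Set.exists_isOpen_lt_of_lt
    rw [hQ]
    exact ENNReal.ofReal_pos.2 (by norm_num)
  set V' : Set ℝ := V ∩ Ioo 0 1 with hV'
  have hV'o : IsOpen V' := hVo.inter isOpen_Ioo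
  set U : Set ℝ := {x | ∃ m : ℤ, x + m ∈ V'} with hU
  have hUo : IsOpen U := by
    have : U = ⋃ m : ℤ, (fun x : ℝ => x + m) ⁻¹' V' := by
      ext x; simp [hU]
    rw [this]
    exact isOpen_iUnion fun m => hV'o.preimage (by fun_prop)
  have hUper : ∀ x, x + 1 ∈ U ↔ x ∈ U := by
    intro x
    constructor
    · rintro ⟨m, hm⟩
      refine ⟨m + 1, ?_⟩
      push_cast
      convert hm using 1
      ring
    · rintro ⟨m, hm⟩
      refine ⟨m - 1, ?_⟩
      push_cast
      convert hm using 1
      ring
  have hUsub : U ∩ Ioc 0 1 ⊆ V' := by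
    rintro x ⟨⟨m, hm⟩, hx0, hx1⟩
    have h1 := hm.2.1
    have h2 := hm.2.2
    have hm0 : m = 0 := by
      have h3 : (-1 : ℝ) < m := by linarith
      have h4 : (m : ℝ) < 1 := by linarith
      have h5 : (-1 : ℤ) < m := by exact_mod_cast h3
      have h6 : m < 1 := by exact_mod_cast h4
      omega
    rw [hm0] at hm
    simpa using hm
  have hUd : ∀ a b : ℝ, a < b → ∃ x ∈ Ioo a b, x ∈ U := by
    intro a b hab
    -- choose a rational non integer
    obtain ⟨q, hq1, hq2⟩ := exists_rat_btwn hab
    obtain ⟨q', hq1', hq2'⟩ := exists_rat_btwn hq2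
    -- an irrational-like trick: choose a rational which is not an integer
    obtain ⟨w, hw, hwi⟩ : ∃ w : ℚ, (a < w ∧ (w : ℝ) < b) ∧ ∀ n : ℤ, (w : ℝ) ≠ n := by
      by_contra hcon
      push Not at hcon
      -- all rationals in (q, q') would be integers
      have hlt : (q : ℝ) < q' := hq1'
      have : ∀ k : ℕ, ∃ n : ℤ, ((q + (q' - q) / (k + 2) : ℚ) : ℝ) = n := by
        intro k
        apply hcon
        have hk : (0 : ℝ) < (k : ℝ) + 2 := by positivity
        push_cast
        constructor
        · have : 0 < ((q' : ℝ) - q) / (k + 2) := div_pos (by linarith) hk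
          linarith
        · have : ((q' : ℝ) - q) / (k + 2) ≤ ((q' : ℝ) - q) / 1 := by
            apply div_le_div_of_nonneg_left (by linarith) one_pos
            linarith [(Nat.cast_nonneg k : (0:ℝ) ≤ k)]
          rw [div_one] at this
          linarith
      obtain ⟨k, hk⟩ := exists_nat_gt ((q' : ℝ) - q)
      obtain ⟨n1, hn1⟩ := this k
      obtain ⟨n2, hn2⟩ := this (k + 1)
      push_cast at hn1 hn2
      have hk0 : (0 : ℝ) < (k : ℝ) + 2 := by positivity
      have hk1 : (0 : ℝ) < (k : ℝ) + 1 + 2 := by positivity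
      have h3 : ((q' : ℝ) - q) / (k + 2) - ((q' : ℝ) - q) / (k + 1 + 2) = ((n1 - n2 : ℤ) : ℝ) := by
        push_cast
        rw [← hn1, ← hn2]
        ring
      have h4 : 0 < ((q' : ℝ) - q) / (k + 2) - ((q' : ℝ) - q) / (k + 1 + 2) := by
        rw [sub_pos]
        apply div_lt_div_of_pos_left (by linarith) hk0
        linarith
      have h5 : ((q' : ℝ) - q) / (k + 2) - ((q' : ℝ) - q) / (k + 1 + 2) < 1 := by
        have e1 : ((q' : ℝ) - q) / (k + 2) < 1 := by
          rw [div_lt_one hk0]
          linarith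
        have e2 : 0 < ((q' : ℝ) - q) / (k + 1 + 2) := div_pos (by linarith) hk1
        linarith
      rw [h3] at h4 h5
      have h6 : (0 : ℤ) < n1 - n2 := by exact_mod_cast h4
      have h7 : n1 - n2 < 1 := by exact_mod_cast h5
      omega
    refine ⟨w, hw, -⌊(w : ℝ)⌋, ?_, ?_, ?_⟩
    · apply hQV
      exact ⟨w - ⌊(w : ℝ)⌋, by push_cast; ring⟩
    · push_cast
      have h1 := Int.floor_le (w : ℝ)
      have h2 : (w : ℝ) ≠ ⌊(w : ℝ)⌋ := hwi _
      rcases lt_or_eq_of_le h1 with h | h
      · linarith
      · exact absurd h.symm h2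
    · push_cast
      have h1 := Int.lt_floor_add_one (w : ℝ)
      linarith
  set K₀ : Set ℝ := Uᶜ with hK₀
  have hK₀c : IsClosed K₀ := hUo.isClosed_compl
  have hK₀per : ∀ x, x + 1 ∈ K₀ ↔ x ∈ K₀ := fun x => not_congr (hUper x)
  set μ : Measure ℝ := volume.restrict K₀ with hμ
  have hKK : μ.support ⊆ K₀ := by
    have := Measure.support_restrict_subset (μ := (volume : Measure ℝ)) (s := K₀)
    intro x hx
    have h2 := this hx
    have h3 := h2.1
    rwa [hK₀c.closure_eq] at h3
  have hnull : volume (K₀ \ μ.support) = 0 := by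
    have h1 : μ μ.supportᶜ = 0 := Measure.measure_compl_support
    rw [hμ, Measure.restrict_apply (Measure.isClosed_support.isOpen_compl.measurableSet)] at h1
    rw [diff_eq, inter_comm]
    exact h1
  have hpos : ∀ x ∈ μ.support, ∀ a b : ℝ, a < x → x < b → 0 < volume (μ.support ∩ Ioo a b) := by
    intro x hx a b ha hb
    have h1 := (Measure.mem_support_iff_forall x).1 hx (Ioo a b) (Ioo_mem_nhds ha hb)
    rw [hμ, Measure.restrict_apply measurableSet_Ioo] at h1
    have h2 : volume (Ioo a b ∩ K₀) ≤ volume (μ.support ∩ Ioo a b) + volume (K₀ \ μ.support) := by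
      refine le_trans (measure_mono ?_) (measure_union_le _ _)
      rintro y ⟨hy1, hy2⟩
      by_cases hy : y ∈ μ.support
      · exact Or.inl ⟨hy, hy1⟩
      · exact Or.inr ⟨hy2, hy⟩
    rw [hnull, add_zero] at h2
    exact h1.trans_le h2
  have hpre : ∀ x, x + 1 ∈ μ.support ↔ x ∈ μ.support := by
    intro x
    rw [Measure.mem_support_iff_forall, Measure.mem_support_iff_forall]
    have hinv : ∀ s : Set ℝ, μ ((fun y : ℝ => y + 1) ⁻¹' s) = μ s := by
      intro s
      have e := (measurePreserving_add_right (volume : Measure ℝ) 1).restrict_preimage_emb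
        (MeasurableEquiv.addRight (1 : ℝ)).measurableEmbedding K₀
      have e2 : (fun y : ℝ => y + 1) ⁻¹' K₀ = K₀ := by
        ext y; exact hK₀per y
      rw [e2] at e
      exact e.measure_preimage_emb (MeasurableEquiv.addRight (1 : ℝ)).measurableEmbedding s
    constructor
    · intro h U hU
      have h1 : (fun y : ℝ => y + (-1)) ⁻¹' U ∈ 𝓝 (x + 1) := by
        apply (continuous_add_const (-1 : ℝ)).continuousAt.preimage_mem_nhds
        simpa using hU
      have h2 := h _ h1
      rw [← hinv] at h2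
      convert h2 using 2
      ext y; simp
    · intro h U hU
      have h1 : (fun y : ℝ => y + 1) ⁻¹' U ∈ 𝓝 x :=
        (continuous_add_const (1 : ℝ)).continuousAt.preimage_mem_nhds hU
      have h2 := h _ h1
      rwa [hinv] at h2
  refine ⟨⟨μ.support, Measure.isClosed_support, hpre, ?_, hpos, ?_⟩⟩
  · intro a b hab
    obtain ⟨x, hx, hxU⟩ := hUd a b hab
    exact ⟨x, hx, fun h => hKK h hxU⟩
  · have h1 : volume (Ioc (0:ℝ) 1) ≤ volume (μ.support ∩ Ioc 0 1) + volume (K₀ \ μ.support) +
        volume V' := by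
      refine le_trans (measure_mono ?_) ((measure_union_le _ _).trans
        (add_le_add_left (measure_union_le _ _) _))
      intro y hy
      by_cases h : y ∈ μ.support
      · exact Or.inl (Or.inl ⟨h, hy⟩)
      · by_cases h2 : y ∈ K₀
        · exact Or.inl (Or.inr ⟨h2, h⟩)
        · refine Or.inr (hUsub ⟨?_, hy⟩)
          simpa [hK₀] using h2
    rw [hnull, add_zero, Real.volume_Ioc] at h1
    have h2 : volume V' ≤ ENNReal.ofReal (1 / 10) := (measure_mono inter_subset_left).trans hV.le
    have h3 : ENNReal.ofReal (1 - 0) ≤ volume (μ.support ∩ Ioc 0 1) + ENNReal.ofReal (1 / 10) :=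
      h1.trans (by gcongr)
    have h4 : ENNReal.ofReal (9 / 10) + ENNReal.ofReal (1 / 10) ≤
        volume (μ.support ∩ Ioc 0 1) + ENNReal.ofReal (1 / 10) := by
      rw [← ENNReal.ofReal_add (by norm_num) (by norm_num)]
      convert h3 using 2
      norm_num
    exact (ENNReal.add_le_add_iff_right ENNReal.ofReal_ne_top).1 h4

end Pool.Agent.W2helper83.MD
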