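import Pool.Agent.W2helper83.MD.Curve
import Pool.Agent.H270R2.St.Basic

/-!
# The curve without a largest gap is a Steiner tree
-/

set_option autoImplicit false

open MeasureTheory Set Filter Topology
open Pool.Agent.H270R2.St (H_lip H_slab H_conn H_diff)

namespace Pool.Agent.W2helper83.MD

namespace FatCantor

variable (F : FatCantor)

/-- an interval of length more than one meets `K` -/
lemma gap_lt {a b : ℝ} (h : ∀ x ∈ Ioo a b, x ∉ F.K) : b < a + 1 := by
  by_contra hcon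
  push Not at hcon
  have h1 : F.th (a + 1) = F.th a := by
    apply F.th_const (by linarith)
    intro x hx
    exact h x ⟨hx.1, hx.2.trans_le hcon⟩
  rw [F.th_add_one] at h1
  linarith [Real.pi_pos]

lemma per_intOne (s : ℝ) (n : ℤ) : s + n ∈ F.K ↔ s ∈ F.K := by
  induction n using Int.induction_on with
  | zero => rw [Int.cast_zero, add_zero]
  | succ k ih =>
    have : s + ((k + 1 : ℤ) : ℝ) = (s + ((k : ℤ) : ℝ)) + 1 := by push_cast; ring
    rw [this, F.per, ih]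
  | pred k ih =>
    have : s + ((-(k:ℤ) - 1 : ℤ) : ℝ) + 1 = (s + ((-(k : ℤ) : ℤ) : ℝ)) := by push_cast; ring
    rw [← F.per, this, ih]

/-- there is a largest gap -/
lemma exists_gap : ∃ p q : ℝ, p ∈ F.K ∧ q ∈ F.K ∧ p < q ∧ (∀ x ∈ Ioo p q, x ∉ F.K) ∧
    ∀ a b : ℝ, (∀ x ∈ Ioo a b, x ∉ F.K) → b - a ≤ q - p := by
  set G : Set (ℝ × ℝ) := {z | z.1 ∈ Icc (0:ℝ) 1 ∧ z.2 ∈ Icc (0:ℝ) 3 ∧ ∀ x ∈ Ioo z.1 z.2, x ∉ F.K} with hG
  have hGc : IsCompact G := by
    apply (isCompact_Icc.prod isCompact_Icc : IsCompact (Icc (0:ℝ) 1 ×ˢ Icc (0:ℝ) 3)).of_isClosed_subset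
    · have e : G = (Icc (0:ℝ) 1 ×ˢ Icc (0:ℝ) 3) ∩ ⋂ x ∈ F.K, {z : ℝ × ℝ | x ≤ z.1 ∨ z.2 ≤ x} := by
        ext z
        simp only [hG, mem_ofPred_eq, mem_inter_iff, mem_prod, mem_iInter, and_assoc]
        refine and_congr_right fun _ => and_congr_right fun _ => ?_
        constructor
        · intro h x hx
          by_contra hcon
          push Not at hcon
          exact h x hcon hx
        · intro h x hx hxK
          rcases h x hxK with h1 | h1
          · exact absurd hx.1 (not_lt.2 h1)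
          · exact absurd hx.2 (not_lt.2 h1)
      rw [e]
      apply (isClosed_Icc.prod isClosed_Icc).inter
      apply isClosed_biInter
      intro x _
      apply IsClosed.union
      · exact isClosed_le continuous_const continuous_fst
      · exact isClosed_le continuous_snd continuous_const
    · intro z hz
      exact ⟨hz.1, hz.2.1⟩
  have h00 : ((0:ℝ), (0:ℝ)) ∈ G :=
    ⟨by simp, by simp, fun x hx => absurd (hx.1.trans hx.2) (lt_irrefl _)⟩
  have hGn : G.Nonempty := ⟨(0, 0), h00⟩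
  obtain ⟨⟨p, q⟩, hpq, hmax⟩ := hGc.exists_isMaxOn hGn
    (f := fun z : ℝ × ℝ => z.2 - z.1) (by fun_prop)
  have hmax' : ∀ a b : ℝ, (∀ x ∈ Ioo a b, x ∉ F.K) → b - a ≤ q - p := by
    intro a b hab
    have h1 := F.gap_lt hab
    have hp0 : 0 ≤ q - p := by
      have := hmax (a := ((0:ℝ), (0:ℝ))) h00
      simpa using this
    rcases le_total b a with h | h
    · linarith
    have h2 := hmax (a := (a - ⌊a⌋, b - ⌊a⌋)) (by
      have f1 := Int.floor_le a
      have f2 := Int.lt_floor_add_one a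
      refine ⟨⟨by simp only; linarith, by simp only; linarith⟩,
        ⟨by simp only; linarith, by simp only; linarith⟩, ?_⟩
      intro x hx hxK
      refine hab (x + ⌊a⌋) ⟨?_, ?_⟩ ((F.per_intOne x ⌊a⌋).2 hxK)
      · linarith [hx.1]
      · linarith [hx.2])
    simp only [mem_ofPred_eq] at h2
    linarith
  have hfree : ∀ x ∈ Ioo p q, x ∉ F.K := hpq.2.2
  -- the maximum is positive
  have hlt : p < q := by
    obtain ⟨x, -, hxK⟩ := F.gaps 0 1 one_pos
    have : F.Kᶜ ∈ 𝓝 x := F.closed.isOpen_compl.mem_nhds hxK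
    obtain ⟨ε, hε, hb⟩ := Metric.mem_nhds_iff.1 this
    have := hmax' (x - ε) (x + ε) (fun y hy => hb (by
      rw [Real.ball_eq_Ioo]; exact hy))
    linarith
  refine ⟨p, q, ?_, ?_, hlt, hfree, hmax'⟩
  · by_contra hp
    have : F.Kᶜ ∈ 𝓝 p := F.closed.isOpen_compl.mem_nhds hp
    obtain ⟨ε, hε, hb⟩ := Metric.mem_nhds_iff.1 this
    have := hmax' (p - ε) q (fun y hy => by
      rcases lt_or_ge p y with h | h
      · exact hfree y ⟨h, hy.2⟩
      · apply hb
        rw [Real.ball_eq_Ioo]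
        exact ⟨hy.1, by linarith⟩)
    linarith
  · by_contra hq
    have : F.Kᶜ ∈ 𝓝 q := F.closed.isOpen_compl.mem_nhds hq
    obtain ⟨ε, hε, hb⟩ := Metric.mem_nhds_iff.1 this
    have := hmax' p (q + ε) (fun y hy => by
      rcases lt_or_ge y q with h | h
      · exact hfree y ⟨hy.1, h⟩
      · apply hb
        rw [Real.ball_eq_Ioo]
        exact ⟨by linarith, hy.2⟩)
    linarith

/-- the terminals -/
noncomputable def A : Set ℂ := F.ga '' F.K

lemma A_eq : F.A = F.ga '' (F.K ∩ Icc 0 2) := by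
  apply subset_antisymm
  · rintro _ ⟨s, hs, rfl⟩
    refine ⟨s + 2 * (-⌊s / 2⌋ : ℤ), ⟨(F.per_int _ _).2 hs, ?_, ?_⟩, F.ga_add_int _ _⟩
    · push_cast
      linarith [Int.floor_le (s / 2)]
    · push_cast
      linarith [Int.lt_floor_add_one (s / 2)]
  · rintro _ ⟨s, hs, rfl⟩
    exact ⟨s, hs.1, rfl⟩

lemma isCompact_A : IsCompact F.A := by
  rw [A_eq]
  exact (isCompact_Icc.inter_left F.closed).image F.ga_cont

lemma K_nonempty : ∃ s, s ∈ F.K := by
  obtain ⟨p, q, hp, -⟩ := F.exists_gap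
  exact ⟨p, hp⟩

/-- measure of the complement of `K` -/
lemma vol_compl {a b : ℝ} (hab : a ≤ b) :
    volume (Ioc a b \ F.K) = ENNReal.ofReal ((b - a) - (F.th b - F.th a) / F.kap) := by
  have h1 : volume (Ioc a b \ F.K) = volume (Ioc a b) - volume (F.K ∩ Ioc a b) := by
    rw [← sdiff_inter_self_eq_sdiff (s := Ioc a b)]
    apply measure_sdiff inter_subset_right
      (F.closed.measurableSet.inter measurableSet_Ioc).nullMeasurableSet (F.vol_ne_top a b)
  rw [h1, Real.volume_Ioc, F.th_sub, mul_div_cancel_left₀ _ F.kap_pos.ne', F.integral_ind hab,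
    ENNReal.ofReal_sub _ ENNReal.toReal_nonneg, ENNReal.ofReal_toReal (F.vol_ne_top a b)]

lemma H_image (E : Set ℝ) : μH[1] (F.ga '' E) ≤ volume E := by
  have h := F.ga_lip.hausdorffMeasure_image_le (d := 1) zero_le_one E
  rw [hausdorffMeasure_real] at h
  simpa using h

lemma pi_div_kap : Real.pi / F.kap = F.c := by
  unfold kap
  field_simp [F.c_pos.ne', Real.pi_pos.ne']

/-- the length of a piece of the curve of parameter length `2 - L` -/
lemma H_piece {a L : ℝ} (hL : L ≤ 2) (h : F.th (a + (2 - L)) - F.th a = 2 * Real.pi) :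
    μH[1] (F.ga '' Icc a (a + (2 - L))) ≤ μH[1] F.A + ENNReal.ofReal (2 * (1 - F.c) - L) := by
  have hsub : F.ga '' Icc a (a + (2 - L)) ⊆
      (F.A ∪ F.ga '' {a}) ∪ F.ga '' (Ioc a (a + (2 - L)) \ F.K) := by
    rintro _ ⟨s, hs, rfl⟩
    by_cases hK : s ∈ F.K
    · exact Or.inl (Or.inl ⟨s, hK, rfl⟩)
    · rcases eq_or_lt_of_le hs.1 with h1 | h1
      · exact Or.inl (Or.inr ⟨a, rfl, by rw [h1]⟩)
      · exact Or.inr ⟨s, ⟨⟨h1, hs.2⟩, hK⟩, rfl⟩
  calc μH[1] (F.ga '' Icc a (a + (2 - L)))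
      ≤ (μH[1] F.A + μH[1] (F.ga '' {a})) + μH[1] (F.ga '' (Ioc a (a + (2 - L)) \ F.K)) :=
        (measure_mono hsub).trans ((measure_union_le _ _).trans
          (add_le_add_left (measure_union_le _ _) _))
    _ ≤ (μH[1] F.A + volume {a}) + volume (Ioc a (a + (2 - L)) \ F.K) := by
        gcongr
        · exact F.H_image _
        · exact F.H_image _
    _ = μH[1] F.A + ENNReal.ofReal (2 * (1 - F.c) - L) := by
        rw [measure_singleton, add_zero, F.vol_compl (by linarith), h]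
        congr 2
        have := F.pi_div_kap
        rw [mul_div_assoc, this]
        ring

/-- parameters whose cross-section does not meet `Σ` -/
def Z (W : Set ℂ) : Set ℝ := {s | ∀ t : ℝ, |t| ≤ 1 / 4 → F.Ph s t ∉ W}

lemma Ph_cont : Continuous fun z : ℝ × ℝ => F.Ph z.1 z.2 := by
  unfold Ph
  have := F.ga_cont
  have := F.ta_cont
  fun_prop

/-- two uncrossed cross-sections on both sides of points of `K` are impossible -/
lemma sep {W : Set ℂ} (hconn : IsPreconnected W) (hAW : F.A ⊆ W)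
    (hW : ∀ x ∈ W, ∃ s t : ℝ, x = F.Ph s t ∧ |t| ≤ 1 / 4) {q s₁ s₂ x : ℝ} (hq : q ∈ F.K)
    (h1 : s₁ ∈ F.Z W) (h2 : s₂ ∈ F.Z W) (hq1 : q < s₁) (h12 : s₁ < s₂) (hq2 : s₂ < q + 2)
    (hx : x ∈ Ioo s₁ s₂) : x ∉ F.K := by
  intro hxK
  set V : ℝ → ℝ → Set ℂ := fun a b => (fun z : ℝ × ℝ => F.Ph z.1 z.2) '' (Icc a b ×ˢ Icc (-(1/4)) (1/4))
    with hV
  have hVc : ∀ a b, IsClosed (V a b) := fun a b =>
    ((isCompact_Icc.prod isCompact_Icc).image F.Ph_cont).isClosed
  have hcov : W ⊆ V s₁ s₂ ∪ V s₂ (s₁ + 2) := by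
    intro w hw
    obtain ⟨s, t, rfl, ht⟩ := hW w hw
    have ht' : t ∈ Icc (-(1/4) : ℝ) (1/4) := abs_le.1 ht
    -- shift s into [s₁, s₁ + 2)
    set n : ℤ := ⌊(s - s₁) / 2⌋ with hn
    have f1 := Int.floor_le ((s - s₁) / 2)
    have f2 := Int.lt_floor_add_one ((s - s₁) / 2)
    rw [← hn] at f1 f2
    have hsh : F.Ph (s + 2 * (-n : ℤ)) t = F.Ph s t := F.Ph_add_int s t (-n)
    push_cast at hsh
    rcases le_total (s + 2 * -n) s₂ with h | h
    · left
      exact ⟨(s + 2 * -n, t), ⟨⟨by linarith, h⟩, ht'⟩, hsh⟩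
    · right
      exact ⟨(s + 2 * -n, t), ⟨⟨h, by linarith⟩, ht'⟩, hsh⟩
  obtain ⟨w, hwW, ⟨⟨a, t⟩, ⟨ha, ht⟩, hw1⟩, ⟨⟨b, t'⟩, ⟨hb, ht'⟩, hw2⟩⟩ :=
    (isPreconnected_closed_iff.1 hconn) _ _ (hVc s₁ s₂) (hVc s₂ (s₁ + 2)) hcov
    ⟨F.ga x, hAW ⟨x, hxK, rfl⟩, (x, 0), ⟨⟨hx.1.le, hx.2.le⟩, by norm_num⟩, F.Ph_zero x⟩
    ⟨F.ga (q + 2), hAW ⟨q + 2, (F.per_two q).2 hq, rfl⟩, (q + 2, 0),
      ⟨⟨hq2.le, by simp only; linarith⟩, by norm_num⟩, F.Ph_zero (q + 2)⟩
  simp only at ha ht hb ht' hw1 hw2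
  obtain ⟨n, hn, -⟩ := F.inj (abs_le.2 ht) (abs_le.2 ht') (hw1.trans hw2.symm)
  have hn0 : (0:ℝ) ≤ n := by linarith [ha.2, hb.1]
  have hn1 : (n:ℝ) ≤ 1 := by linarith [ha.1, hb.2]
  have hn0' : (0:ℤ) ≤ n := by exact_mod_cast hn0
  have hn1' : n ≤ 1 := by exact_mod_cast hn1
  have : n = 0 ∨ n = 1 := by omega
  rcases this with rfl | rfl
  · have e : a = s₂ := by
      push_cast at hn
      linarith [ha.2, hb.1]
    subst e
    exact h2 t (abs_le.2 ht) (by rw [hw1]; exact hwW)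
  · have e : a = s₁ := by
      push_cast at hn
      linarith [ha.1, hb.2]
    subst e
    exact h1 t (abs_le.2 ht) (by rw [hw1]; exact hwW)

/-- measure of the crossed part of the gaps -/
lemma crossed (W : Set ℂ) (hWm : MeasurableSet W) (q : ℝ) :
    volume ((Ioo q (q + 2) \ F.K) \ F.Z W) ≤ μH[1] (W \ F.A) := by
  set U : Set ℝ := Ioo q (q + 2) \ F.K with hU
  have hUo : IsOpen U := isOpen_Ioo.sdiff F.closed
  set 𝒞 : Set (Set ℝ) := (fun x => connectedComponentIn U x) '' U with h𝒞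
  have hop : ∀ C ∈ 𝒞, IsOpen C := by
    rintro _ ⟨x, _, rfl⟩
    exact hUo.connectedComponentIn
  have hne : ∀ C ∈ 𝒞, C.Nonempty := by
    rintro _ ⟨x, hx, rfl⟩
    exact ⟨x, mem_connectedComponentIn hx⟩
  have hsubU : ∀ C ∈ 𝒞, C ⊆ U := by
    rintro _ ⟨x, _, rfl⟩
    exact connectedComponentIn_subset U x
  have hpre : ∀ C ∈ 𝒞, IsPreconnected C := by
    rintro _ ⟨x, _, rfl⟩
    exact isPreconnected_connectedComponentIn
  have heq : ∀ C ∈ 𝒞, ∀ C' ∈ 𝒞, ∀ x, x ∈ C → x ∈ C' → C = C' := by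
    rintro _ ⟨y, _, rfl⟩ _ ⟨y', _, rfl⟩ x hx hx'
    simp only at hx hx' ⊢
    rw [connectedComponentIn_eq hx, connectedComponentIn_eq hx']
  have hdis : 𝒞.PairwiseDisjoint id := by
    intro C hC C' hC' hne
    rw [Function.onFun, Set.disjoint_left]
    intro x hx hx'
    exact hne (heq C hC C' hC' x hx hx')
  have hcount : 𝒞.Countable := hdis.countable_of_isOpen hop hne
  have hcovU : U ⊆ ⋃ C ∈ 𝒞, C := by
    intro x hx
    exact mem_biUnion (mem_image_of_mem _ hx) (mem_connectedComponentIn hx)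
  -- the rectangle over a gap
  set R : Set ℝ → Set ℂ := fun C => {z | ∃ s ∈ C, ∃ t : ℝ, |t| ≤ 1 / 4 ∧ z = F.Ph s t} with hR
  -- straightness
  have hstr : ∀ C ∈ 𝒞, ∀ s₀ ∈ C, ∀ s ∈ C, F.th s = F.th s₀ := by
    intro C hC s₀ hs₀ s hs
    have hoc := (hpre C hC).ordConnected
    rcases le_total s s₀ with h | h
    · refine (F.th_const h fun x hx => ?_).symm
      exact (hsubU C hC (hoc.out hs hs₀ ⟨hx.1.le, hx.2.le⟩)).2
    · refine F.th_const h fun x hx => ?_
      exact (hsubU C hC (hoc.out hs₀ hs ⟨hx.1.le, hx.2.le⟩)).2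
  have hline : ∀ C ∈ 𝒞, ∀ s₀ ∈ C, ∀ s ∈ C, ∀ t : ℝ,
      (F.Ph s t - F.ga s₀) * (starRingEnd ℂ) (F.ta s₀) = (s - s₀ : ℝ) + t * Complex.I := by
    intro C hC s₀ hs₀ s hs t
    have hta : ∀ u ∈ C, F.ta u = F.ta s₀ := by
      intro u hu
      unfold ta
      rw [hstr C hC s₀ hs₀ u hu]
    have hoc := (hpre C hC).ordConnected
    have hg : F.ga s - F.ga s₀ = (s - s₀ : ℝ) * F.ta s₀ := by
      rw [F.ga_sub]
      have : ∫ u in s₀..s, F.ta u = ∫ u in s₀..s, F.ta s₀ := by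
        apply intervalIntegral.integral_congr
        intro u hu
        exact hta u (hoc.uIcc_subset hs₀ hs hu)
      rw [this, intervalIntegral.integral_const]
      simp
    have hn : F.ta s₀ * (starRingEnd ℂ) (F.ta s₀) = 1 := by
      rw [Complex.mul_conj, Complex.normSq_eq_norm_sq, F.norm_ta]; norm_num
    unfold Ph
    rw [hta s hs]
    linear_combination (starRingEnd ℂ) (F.ta s₀) * hg + ((s - s₀ : ℝ) + t * Complex.I) * hn
  have hRm : ∀ C ∈ 𝒞, MeasurableSet (R C) := by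
    intro C hC
    obtain ⟨s₀, hs₀⟩ := hne C hC
    have e : R C = {z : ℂ | ((z - F.ga s₀) * (starRingEnd ℂ) (F.ta s₀)).re + s₀ ∈ C} ∩
        {z : ℂ | |((z - F.ga s₀) * (starRingEnd ℂ) (F.ta s₀)).im| ≤ 1 / 4} := by
      ext z
      constructor
      · rintro ⟨s, hs, t, ht, rfl⟩
        rw [mem_inter_iff, mem_ofPred_eq, mem_ofPred_eq, hline C hC s₀ hs₀ s hs t]
        simp only [Complex.add_re, Complex.ofReal_re, Complex.mul_re, Complex.I_re, mul_zero,
          Complex.ofReal_im, Complex.I_im, mul_one, sub_self, add_zero, Complex.add_im,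
          Complex.mul_im, zero_add]
        refine ⟨?_, ht⟩
        convert hs using 1
        ring
      · rintro ⟨h1, h2⟩
        rw [mem_ofPred_eq] at h1 h2
        refine ⟨_, h1, _, h2, ?_⟩
        have h3 := hline C hC s₀ hs₀ _ h1 ((z - F.ga s₀) * (starRingEnd ℂ) (F.ta s₀)).im
        set w := (z - F.ga s₀) * (starRingEnd ℂ) (F.ta s₀) with hw
        have h4 : ((w.re + s₀ - s₀ : ℝ) : ℂ) + w.im * Complex.I = w := by
          rw [add_sub_cancel_right, Complex.re_add_im]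
        rw [h4, hw] at h3
        have hne0 : (starRingEnd ℂ) (F.ta s₀) ≠ 0 := by
          intro h5
          have h6 : ‖(starRingEnd ℂ) (F.ta s₀)‖ = 1 := by rw [Complex.norm_conj, F.norm_ta]
          rw [h5, norm_zero] at h6
          exact zero_ne_one h6
        have h5 := mul_right_cancel₀ hne0 h3
        linear_combination -h5
    rw [e]
    have hc : Continuous fun z : ℂ => (z - F.ga s₀) * (starRingEnd ℂ) (F.ta s₀) := by fun_prop
    apply MeasurableSet.inter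
    · exact ((hop C hC).preimage
        ((Complex.continuous_re.comp hc).add continuous_const)).measurableSet
    · exact (isClosed_le (Complex.continuous_im.comp hc).abs continuous_const).measurableSet
  have hRd : 𝒞.PairwiseDisjoint (fun C => W ∩ R C) := by
    intro C hC C' hC' hne
    rw [Function.onFun, Set.disjoint_left]
    rintro z ⟨-, s, hs, t, ht, rfl⟩ ⟨-, s', hs', t', ht', h⟩
    obtain ⟨n, hn, -⟩ := F.inj ht ht' h
    have m1 := (hsubU C hC hs).1
    have m2 := (hsubU C' hC' hs').1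
    have hn1 : (n:ℝ) < 1 := by linarith [m1.1, m1.2, m2.1, m2.2]
    have hn2 : (-1:ℝ) < n := by linarith [m1.1, m1.2, m2.1, m2.2]
    have hn1' : n < 1 := by exact_mod_cast hn1
    have hn2' : -1 < n := by exact_mod_cast hn2
    have : n = 0 := by omega
    subst this
    have e : s' = s := by simpa using hn
    rw [e] at hs'
    exact hne (heq C hC C' hC' s hs hs')
  have hRA : ∀ C ∈ 𝒞, R C ∩ F.A = ∅ := by
    intro C hC
    ext z
    simp only [mem_inter_iff, mem_empty_iff_false, iff_false, not_and]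
    rintro ⟨s, hs, t, ht, rfl⟩ ⟨k, hk, hk2⟩
    obtain ⟨n, hn, -⟩ := F.inj (s := s) (s' := k) (t := t) (t' := 0) ht (by simp)
      (by rw [F.Ph_zero, hk2])
    rw [hn] at hk
    exact (hsubU C hC hs).2 ((F.per_int s n).1 hk)
  have hone : ∀ C ∈ 𝒞, volume (C \ F.Z W) ≤ μH[1] (W ∩ R C) := by
    intro C hC
    obtain ⟨s₀, hs₀⟩ := hne C hC
    set φ : ℂ → ℝ := fun z => ((z - F.ga s₀) * (starRingEnd ℂ) (F.ta s₀)).re + s₀ with hφ
    have hlip : LipschitzWith 1 φ := by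
      apply LipschitzWith.of_dist_le_mul
      intro z w
      rw [Real.dist_eq, dist_eq_norm, NNReal.coe_one, one_mul]
      have : φ z - φ w = ((z - w) * (starRingEnd ℂ) (F.ta s₀)).re := by
        simp only [hφ]
        rw [add_sub_add_right_eq_sub, ← Complex.sub_re]
        congr 1
        ring
      rw [this]
      refine (Complex.abs_re_le_norm _).trans ?_
      rw [norm_mul, Complex.norm_conj, F.norm_ta, mul_one]
    refine le_trans (measure_mono ?_) (H_lip hlip (W ∩ R C))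
    rintro s ⟨hs, hsZ⟩
    unfold Z at hsZ
    rw [mem_ofPred_eq] at hsZ
    push Not at hsZ
    obtain ⟨t, ht, htW⟩ := hsZ
    refine ⟨F.Ph s t, ⟨htW, s, hs, t, ht, rfl⟩, ?_⟩
    simp only [hφ]
    rw [hline C hC s₀ hs₀ s hs t]
    simp
  calc volume (U \ F.Z W) ≤ volume (⋃ C ∈ 𝒞, (C \ F.Z W)) := by
        apply measure_mono
        rintro x ⟨hx, hxZ⟩
        have := hcovU hx
        rw [mem_iUnion₂] at this ⊢
        obtain ⟨C, hC, hxC⟩ := this
        exact ⟨C, hC, hxC, hxZ⟩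
    _ ≤ ∑' C : 𝒞, volume ((C : Set ℝ) \ F.Z W) := measure_biUnion_le _ hcount _
    _ ≤ ∑' C : 𝒞, μH[1] (W ∩ R C) := ENNReal.tsum_le_tsum fun C => hone C C.2
    _ = μH[1] (⋃ C ∈ 𝒞, W ∩ R C) :=
        (measure_biUnion hcount hRd fun C hC => hWm.inter (hRm C hC)).symm
    _ ≤ μH[1] (W \ F.A) := by
        apply measure_mono
        intro z hz
        rw [mem_iUnion₂] at hz
        obtain ⟨C, hC, hzW, hzR⟩ := hz
        refine ⟨hzW, fun hzA => ?_⟩
        have : z ∈ R C ∩ F.A := ⟨hzR, hzA⟩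
        rw [hRA C hC] at this
        exact this

/-- **The lower bound for Steiner trees.** -/
theorem low {W : Set ℂ} (hWc : IsCompact W) (hconn : IsPreconnected W) (hAW : F.A ⊆ W)
    {p q : ℝ} (hq : q ∈ F.K) (hmax : ∀ a b : ℝ, (∀ x ∈ Ioo a b, x ∉ F.K) → b - a ≤ q - p) :
    ENNReal.ofReal (2 * (1 - F.c) - (q - p)) ≤ μH[1] (W \ F.A) := by
  by_contra hcon
  push Not at hcon
  have hpq : 0 ≤ q - p := by
    have := hmax 0 0 (by simp)
    simpa using this
  have hpos : 0 < 2 * (1 - F.c) - (q - p) := by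
    by_contra h
    push Not at h
    rw [ENNReal.ofReal_of_nonpos h] at hcon
    exact not_lt_zero hcon
  have hc := F.c_ge
  obtain ⟨a₀, ha₀⟩ : F.A.Nonempty := by
    obtain ⟨s, hs⟩ := F.K_nonempty
    exact ⟨F.ga s, s, hs, rfl⟩
  -- every point of W has tube coordinates
  have hcoord : ∀ x ∈ W, ∃ s t : ℝ, x = F.Ph s t ∧ |t| ≤ 1 / 4 := by
    intro x hx
    have h1 : ENNReal.ofReal (Metric.infDist x F.A) < ENNReal.ofReal (2 * (1 - F.c) - (q - p)) :=
      (H_diff hconn (hAW ha₀) ha₀ hx).trans_lt hcon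
    have h2 : Metric.infDist x F.A < 1 / 4 := by
      have := (ENNReal.ofReal_lt_ofReal_iff hpos).1 h1
      linarith
    obtain ⟨a, ha, hda⟩ := (Metric.infDist_lt_iff ⟨a₀, ha₀⟩).1 h2
    obtain ⟨s, hs, rfl⟩ := ha
    exact F.exists_coord hda.le
  -- uncrossed parameters
  have hZ1 : ∀ s₁ ∈ F.Z W ∩ Ioo q (q + 2), ∀ s₂ ∈ F.Z W ∩ Ioo q (q + 2), dist s₁ s₂ ≤ q - p := by
    have key : ∀ s₁ ∈ F.Z W ∩ Ioo q (q + 2), ∀ s₂ ∈ F.Z W ∩ Ioo q (q + 2), s₁ ≤ s₂ →
        s₂ - s₁ ≤ q - p := by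
      rintro s₁ ⟨h1, h1'⟩ s₂ ⟨h2, h2'⟩ h
      rcases eq_or_lt_of_le h with rfl | h
      · simpa using hpq
      · exact hmax _ _ fun x hx => F.sep hconn hAW hcoord hq h1 h2 h1'.1 h h2'.2 hx
    intro s₁ h1 s₂ h2
    rw [Real.dist_eq]
    rcases le_total s₁ s₂ with h | h
    · rw [abs_sub_comm, abs_of_nonneg (sub_nonneg.2 h)]
      exact key s₁ h1 s₂ h2 h
    · rw [abs_of_nonneg (sub_nonneg.2 h)]
      exact key s₂ h2 s₁ h1 h
  have hZ2 : volume (F.Z W ∩ Ioo q (q + 2)) ≤ ENNReal.ofReal (q - p) := by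
    refine (Real.volume_le_diam _).trans ?_
    apply Metric.ediam_le
    intro s₁ h1 s₂ h2
    rw [edist_dist]
    exact ENNReal.ofReal_le_ofReal (hZ1 s₁ h1 s₂ h2)
  have hU := F.crossed W hWc.measurableSet q
  have htot : volume (Ioc q (q + 2) \ F.K) = ENNReal.ofReal (2 * (1 - F.c)) := by
    rw [F.vol_compl (by linarith)]
    congr 1
    have h1 : F.th (q + 2) = F.th q + 2 * Real.pi := by
      have : q + 2 = q + 1 + 1 := by ring
      rw [this, F.th_add_one, F.th_add_one]; ring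
    rw [h1]
    have := F.pi_div_kap
    have e : (F.th q + 2 * Real.pi - F.th q) / F.kap = 2 * (Real.pi / F.kap) := by ring
    rw [e, this]; ring
  have hle : volume (Ioc q (q + 2) \ F.K) ≤ ENNReal.ofReal (q - p) + μH[1] (W \ F.A) := by
    have : Ioc q (q + 2) \ F.K ⊆ (F.Z W ∩ Ioo q (q + 2)) ∪ ((Ioo q (q + 2) \ F.K) \ F.Z W) := by
      rintro s ⟨hs, hsK⟩
      have hs2 : s < q + 2 := by
        rcases eq_or_lt_of_le hs.2 with h | h
        · exfalso; apply hsK; rw [h]; exact (F.per_two q).2 hq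
        · exact h
      by_cases hz : s ∈ F.Z W
      · exact Or.inl ⟨hz, hs.1, hs2⟩
      · exact Or.inr ⟨⟨⟨hs.1, hs2⟩, hsK⟩, hz⟩
    exact (measure_mono this).trans ((measure_union_le _ _).trans (add_le_add hZ2 hU))
  rw [htot] at hle
  have h3 : ENNReal.ofReal (2 * (1 - F.c)) < ENNReal.ofReal (q - p) +
      ENNReal.ofReal (2 * (1 - F.c) - (q - p)) :=
    hle.trans_lt (ENNReal.add_lt_add_left ENNReal.ofReal_ne_top hcon)
  rw [← ENNReal.ofReal_add hpq hpos.le] at h3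
  have e : q - p + (2 * (1 - F.c) - (q - p)) = 2 * (1 - F.c) := by ring
  rw [e] at h3
  exact lt_irrefl _ h3

end FatCantor

end Pool.Agent.W2helper83.MD
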