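import Pool.Agent.W2helper83.MD.Low
import Pool.Agent.W2helper83.MD.Area

/-!
# The area of the tube around the curve
-/

set_option autoImplicit false

open MeasureTheory Set Filter Topology
open scoped ENNReal

namespace Pool.Agent.W2helper83.MD

lemma vol_rect {A B : Set ℝ} (hA : MeasurableSet A) (hB : MeasurableSet B) :
    volume {z : ℂ | z.re ∈ A ∧ z.im ∈ B} = volume A * volume B := by
  have hm : MeasurableSet {z : ℂ | z.re ∈ A ∧ z.im ∈ B} :=
    (Complex.measurable_re hA).inter (Complex.measurable_im hB)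
  have hmp := Complex.volume_preserving_equiv_real_prod.symm
  rw [← hmp.measure_preimage hm.nullMeasurableSet]
  have e : Complex.measurableEquivRealProd.symm ⁻¹' {z : ℂ | z.re ∈ A ∧ z.im ∈ B} = A ×ˢ B := by
    ext ⟨x, y⟩
    rfl
  rw [e, Measure.volume_eq_prod, Measure.prod_prod]

namespace FatCantor

variable (F : FatCantor)

/-- the tube coordinates as a self-map of the plane -/
noncomputable def f (z : ℂ) : ℂ := F.Ph z.re z.im

/-- its derivative -/
noncomputable def f' (z : ℂ) : ℂ →L[ℝ] ℂ :=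
  Complex.reCLM.smulRight ((1 - z.im * (F.kap * F.ind z.re) : ℝ) * F.ta z.re) +
    Complex.imCLM.smulRight (Complex.I * F.ta z.re)

lemma det_f' (z : ℂ) : (F.f' z).det = 1 - z.im * (F.kap * F.ind z.re) := by
  have h1 : (F.f' z).det = LinearMap.det ((F.f' z : ℂ →L[ℝ] ℂ) : ℂ →ₗ[ℝ] ℂ) := rfl
  rw [h1, ← LinearMap.det_toMatrix Complex.basisOneI, Matrix.det_fin_two]
  simp only [LinearMap.toMatrix_apply, Complex.coe_basisOneI, Complex.coe_basisOneI_repr, f']
  have hn : (F.ta z.re).re * (F.ta z.re).re + (F.ta z.re).im * (F.ta z.re).im = 1 := by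
    rw [← Complex.normSq_apply, Complex.normSq_eq_norm_sq, F.norm_ta]; norm_num
  simp
  linear_combination (1 - z.im * (F.kap * F.ind z.re)) * hn

lemma hasDeriv_ta {s : ℝ} (h : HasDerivAt F.th (F.kap * F.ind s) s) :
    HasDerivAt F.ta ((F.kap * F.ind s : ℝ) * Complex.I * F.ta s) s := by
  unfold ta
  have h1 : HasDerivAt (fun s => (F.th s : ℂ) * Complex.I) ((F.kap * F.ind s : ℝ) * Complex.I) s :=
    h.ofReal_comp.mul_const Complex.I
  convert h1.cexp using 1
  ring

lemma hasFDeriv_f {z : ℂ} (h : HasDerivAt F.th (F.kap * F.ind z.re) z.re) :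
    HasFDerivAt F.f (F.f' z) z := by
  have hre : HasFDerivAt (fun z : ℂ => z.re) Complex.reCLM z := Complex.reCLM.hasFDerivAt
  have him : HasFDerivAt (fun z : ℂ => z.im) Complex.imCLM z := Complex.imCLM.hasFDerivAt
  have h1 : HasFDerivAt (fun z : ℂ => F.ga z.re) (Complex.reCLM.smulRight (F.ta z.re)) z := by
    have := (F.ga_deriv z.re).hasFDerivAt.comp z hre
    refine this.congr_fderiv ?_
    ext <;> simp
  have h2 : HasFDerivAt (fun z : ℂ => F.ta z.re)
      (Complex.reCLM.smulRight ((F.kap * F.ind z.re : ℝ) * Complex.I * F.ta z.re)) z := by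
    have := (F.hasDeriv_ta h).hasFDerivAt.comp z hre
    refine this.congr_fderiv ?_
    ext <;> simp
  have h3 : HasFDerivAt (fun z : ℂ => (z.im : ℂ) * Complex.I)
      (Complex.imCLM.smulRight Complex.I) z := by
    have h4 : HasFDerivAt (fun z : ℂ => (z.im : ℂ)) (Complex.ofRealCLM.comp Complex.imCLM) z :=
      (Complex.ofRealCLM.comp Complex.imCLM).hasFDerivAt
    have := h4.mul_const Complex.I
    refine this.congr_fderiv ?_
    ext <;> simp [mul_comm]
  have h5 := h1.add (h3.mul h2)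
  refine h5.congr_fderiv ?_
  apply ContinuousLinearMap.ext
  intro w
  simp [f']
  linear_combination ((w.re * z.im * (F.kap * F.ind z.re) * F.ta z.re : ℂ)) * Complex.I_sq

/-- almost everywhere differentiability -/
lemma exists_good : ∃ G : Set ℝ, MeasurableSet G ∧ volume Gᶜ = 0 ∧
    ∀ s ∈ G, HasDerivAt F.th (F.kap * F.ind s) s := by
  have h := LocallyIntegrable.ae_hasDerivAt_integral F.locInt
  have h2 : volume {s | ¬ HasDerivAt F.th (F.kap * F.ind s) s} = 0 := by
    apply measure_mono_null _ h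
    intro s hs hs2
    apply hs
    exact (hs2 0).const_mul F.kap
  obtain ⟨N, hN1, hN2, hN3⟩ := exists_measurable_superset_of_null h2
  refine ⟨Nᶜ, hN2.compl, by rwa [compl_compl], fun s hs => ?_⟩
  by_contra hcon
  exact hs (hN1 hcon)

/-- **The area of a tube.** -/
lemma tube {a b r : ℝ} (hab : a ≤ b) (hb : b ≤ a + 2) (hr2 : r ≤ 1 / 4) :
    ENNReal.ofReal (2 * r * (b - a)) ≤
      volume {z : ℂ | ∃ s ∈ Ioo a b, ∃ t ∈ Ioo (-r) r, z = F.Ph s t} := by
  obtain ⟨G, hG, hGn, hGd⟩ := F.exists_good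
  set D : Set ℂ := {z | z.re ∈ Ioo a b ∩ G ∧ z.im ∈ Ioo (-r) r} with hD
  have hDm : MeasurableSet D :=
    (Complex.measurable_re (measurableSet_Ioo.inter hG)).inter (Complex.measurable_im measurableSet_Ioo)
  have hinj : InjOn F.f D := by
    intro z hz w hw h
    obtain ⟨n, hn, ht⟩ := F.inj (s := z.re) (s' := w.re) (t := z.im) (t' := w.im)
      ((abs_lt.2 hz.2).le.trans hr2) ((abs_lt.2 hw.2).le.trans hr2) h
    have m1 := hz.1.1
    have m2 := hw.1.1
    have hn1 : (n:ℝ) < 1 := by linarith [m1.1, m1.2, m2.1, m2.2]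
    have hn2 : (-1:ℝ) < n := by linarith [m1.1, m1.2, m2.1, m2.2]
    have hn1' : n < 1 := by exact_mod_cast hn1
    have hn2' : -1 < n := by exact_mod_cast hn2
    have : n = 0 := by omega
    subst this
    apply Complex.ext
    · rw [hn]; simp
    · rw [ht]
  have hcv := lintegral_abs_det_fderiv_eq_addHaar_image volume hDm
    (fun z hz => (F.hasFDeriv_f (hGd z.re hz.1.2)).hasFDerivWithinAt) hinj
  have hvD : volume D = ENNReal.ofReal (2 * r * (b - a)) := by
    rw [hD, vol_rect (measurableSet_Ioo.inter hG) measurableSet_Ioo]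
    have h1 : volume (Ioo a b ∩ G) = ENNReal.ofReal (b - a) := by
      rw [measure_inter_conull hGn, Real.volume_Ioo]
    rw [h1, Real.volume_Ioo, ← ENNReal.ofReal_mul (by linarith)]
    congr 1; ring
  -- the integral of the Jacobian
  set J : ℂ → ℝ≥0∞ := fun z => ENNReal.ofReal (1 - z.im * (F.kap * F.ind z.re)) with hJ
  have hJm : Measurable J := by
    apply ENNReal.measurable_ofReal.comp
    exact measurable_const.sub (Complex.measurable_im.mul (measurable_const.mul
      (F.measurable_ind.comp Complex.measurable_re)))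
  have hbound : ∀ z ∈ D, |z.im * (F.kap * F.ind z.re)| ≤ 1 := by
    intro z hz
    rw [abs_mul, abs_mul, abs_of_pos F.kap_pos, abs_of_nonneg (F.ind_nonneg _)]
    have h1 : |z.im| ≤ 1 / 4 := (abs_lt.2 hz.2).le.trans hr2
    have h2 : F.kap * F.ind z.re ≤ 4 * 1 :=
      mul_le_mul F.kap_lt.le (F.ind_le_one _) (F.ind_nonneg _) (by norm_num)
    calc |z.im| * (F.kap * F.ind z.re) ≤ (1 / 4) * (4 * 1) :=
          mul_le_mul h1 h2 (mul_nonneg F.kap_pos.le (F.ind_nonneg _)) (by norm_num)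
      _ = 1 := by norm_num
  have hint : ∫⁻ z in D, ENNReal.ofReal |(F.f' z).det| = ∫⁻ z in D, J z := by
    apply setLIntegral_congr_fun hDm
    intro z hz
    simp only [hJ]
    rw [F.det_f', abs_of_nonneg]
    linarith [(abs_le.1 (hbound z hz)).2]
  have hconj : ∫⁻ z in D, J z = ∫⁻ z in D, J ((starRingEnd ℂ) z) := by
    have hmp : MeasurePreserving Complex.conjLIE := Complex.conjLIE.measurePreserving
    have := hmp.setLIntegral_comp_preimage hDm hJm
    have hpre : Complex.conjLIE ⁻¹' D = D := by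
      ext z
      simp only [hD, mem_preimage, mem_ofPred_eq, Complex.conjLIE_apply, Complex.conj_re,
        Complex.conj_im, mem_Ioo]
      constructor
      · rintro ⟨h1, h2, h3⟩
        exact ⟨h1, by linarith, by linarith⟩
      · rintro ⟨h1, h2, h3⟩
        exact ⟨h1, by linarith, by linarith⟩
    rw [hpre] at this
    rw [← this]
    rfl
  have htwo : 2 * ∫⁻ z in D, J z = 2 * volume D := by
    calc 2 * ∫⁻ z in D, J z = (∫⁻ z in D, J z) + ∫⁻ z in D, J ((starRingEnd ℂ) z) := by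
          rw [← hconj, two_mul]
      _ = ∫⁻ z in D, (J z + J ((starRingEnd ℂ) z)) := by
          rw [lintegral_add_left hJm]
      _ = ∫⁻ z in D, 2 := by
          apply setLIntegral_congr_fun hDm
          intro z hz
          simp only [hJ, Complex.conj_re, Complex.conj_im]
          have h1 := abs_le.1 (hbound z hz)
          rw [← ENNReal.ofReal_add (by linarith [h1.2]) (by linarith [h1.1])]
          rw [show (1 - z.im * (F.kap * F.ind z.re) + (1 - -z.im * (F.kap * F.ind z.re))) = 2 by ring]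
          simp
      _ = 2 * volume D := by
          rw [lintegral_const, Measure.restrict_apply_univ]
  have hIJ : ∫⁻ z in D, J z = volume D :=
    (ENNReal.mul_right_inj (by norm_num) (by norm_num)).1 htwo
  rw [← hvD, ← hIJ, ← hint, hcv]
  apply measure_mono
  rintro _ ⟨z, hz, rfl⟩
  exact ⟨z.re, hz.1.1, z.im, hz.2, rfl⟩

/-- straightness of the curve on a gap -/
lemma Ph_gap {p q : ℝ} (hgap : ∀ x ∈ Ioo p q, x ∉ F.K) {s₀ s : ℝ} (hs₀ : s₀ ∈ Icc p q)
    (hs : s ∈ Icc p q) (t : ℝ) : F.Ph s t = F.ga s₀ + F.ta s₀ * ((s - s₀ : ℝ) + t * Complex.I) := by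
  have hth : ∀ u ∈ Icc p q, ∀ v ∈ Icc p q, F.th u = F.th v := by
    have key : ∀ u ∈ Icc p q, ∀ v ∈ Icc p q, u ≤ v → F.th v = F.th u := by
      intro u hu v hv h
      apply F.th_const h
      intro x hx
      exact hgap x ⟨hu.1.trans_lt hx.1, hx.2.trans_le hv.2⟩
    intro u hu v hv
    rcases le_total u v with h | h
    · exact (key u hu v hv h).symm
    · exact key v hv u hu h
  have hta : ∀ u ∈ Icc p q, F.ta u = F.ta s₀ := by
    intro u hu
    unfold ta
    rw [hth u hu s₀ hs₀]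
  have hg : F.ga s - F.ga s₀ = (s - s₀ : ℝ) * F.ta s₀ := by
    rw [F.ga_sub]
    have : ∫ u in s₀..s, F.ta u = ∫ u in s₀..s, F.ta s₀ := by
      apply intervalIntegral.integral_congr
      intro u hu
      exact hta u (ordConnected_Icc.uIcc_subset hs₀ hs hu)
    rw [this, intervalIntegral.integral_const]
    simp
  unfold Ph
  rw [hta s hs]
  linear_combination hg

lemma ball_halves (r : ℝ) : volume (Metric.closedBall (0:ℂ) r) ≤
    volume {z : ℂ | ‖z‖ ≤ r ∧ z.re < 0} + volume {z : ℂ | ‖z‖ ≤ r ∧ 0 < z.re} := by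
  have h0 : volume {z : ℂ | z.re ∈ ({0} : Set ℝ) ∧ z.im ∈ (univ : Set ℝ)} = 0 := by
    rw [vol_rect (measurableSet_singleton 0) MeasurableSet.univ]
    simp
  have hsub : Metric.closedBall (0:ℂ) r ⊆ ({z : ℂ | ‖z‖ ≤ r ∧ z.re < 0} ∪ {z : ℂ | ‖z‖ ≤ r ∧ 0 < z.re}) ∪
      {z : ℂ | z.re ∈ ({0} : Set ℝ) ∧ z.im ∈ (univ : Set ℝ)} := by
    intro z hz
    rw [mem_closedBall_zero_iff] at hz
    rcases lt_trichotomy z.re 0 with h | h | h
    · exact Or.inl (Or.inl ⟨hz, h⟩)
    · exact Or.inr ⟨h, mem_univ _⟩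
    · exact Or.inl (Or.inr ⟨hz, h⟩)
  calc volume (Metric.closedBall (0:ℂ) r) ≤ _ := measure_mono hsub
    _ ≤ _ := (measure_union_le _ _)
    _ ≤ _ := add_le_add_left (measure_union_le _ _) _
    _ = _ := by rw [h0, add_zero]

/-- **The area of the neighbourhood of the curve without a gap.** -/
lemma nbhd {p q r : ℝ} (hpq : p < q) (hgap : ∀ x ∈ Ioo p q, x ∉ F.K) (hr : 0 < r)
    (hr3 : r + r < q - p) (hr2 : r ≤ 1 / 4) :
    ENNReal.ofReal (2 * r * (2 - (q - p))) + ENNReal.ofReal (Real.pi * r ^ 2) ≤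
      volume (Metric.cthickening r (F.ga '' Icc q (p + 2))) := by
  have hlt := F.gap_lt hgap
  set T : Set ℂ := {z : ℂ | ∃ s ∈ Ioo q (p + 2), ∃ t ∈ Ioo (-r) r, z = F.Ph s t} with hT
  set H1 : Set ℂ := (fun z => F.ga q + F.ta q * z) '' {z : ℂ | ‖z‖ ≤ r ∧ z.re < 0} with hH1
  set H2 : Set ℂ := (fun z => F.ga p + F.ta p * z) '' {z : ℂ | ‖z‖ ≤ r ∧ 0 < z.re} with hH2
  have hTv := F.tube (a := q) (b := p + 2) (r := r) (by linarith) (by linarith) hr2
  rw [← hT] at hTv
  have hv1 : volume H1 = volume {z : ℂ | ‖z‖ ≤ r ∧ z.re < 0} := volume_rigid _ _ (F.norm_ta q) _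
  have hv2 : volume H2 = volume {z : ℂ | ‖z‖ ≤ r ∧ 0 < z.re} := volume_rigid _ _ (F.norm_ta p) _
  have hball : ENNReal.ofReal (Real.pi * r ^ 2) ≤ volume H1 + volume H2 := by
    rw [hv1, hv2]
    refine le_trans (le_of_eq ?_) (ball_halves r)
    rw [Complex.volume_closedBall, ENNReal.ofReal_mul Real.pi_pos.le, ENNReal.ofReal_pow hr.le, mul_comm]
    congr 1
    exact ENNReal.ofReal_coe_nnreal (p := NNReal.pi)
  -- measurability
  have hme : ∀ (x u : ℂ), ‖u‖ = 1 → ∀ S : Set ℂ, MeasurableSet S →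
      MeasurableSet ((fun z => x + u * z) '' S) := by
    intro x u hu S hS
    have hu0 : u ≠ 0 := by
      rintro rfl
      simp at hu
    have e : (fun z => x + u * z) '' S = (fun w => u⁻¹ * (w - x)) ⁻¹' S := by
      ext w
      constructor
      · rintro ⟨z, hz, rfl⟩
        simp only [mem_preimage, add_sub_cancel_left]
        rwa [inv_mul_cancel_left₀ hu0]
      · intro hw
        refine ⟨_, hw, ?_⟩
        simp only
        rw [mul_inv_cancel_left₀ hu0]
        ring
    rw [e]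
    have : Measurable fun w : ℂ => u⁻¹ * (w - x) := by fun_prop
    exact this hS
  have hnm : MeasurableSet {z : ℂ | ‖z‖ ≤ r} := (isClosed_le continuous_norm continuous_const).measurableSet
  have hH1m : MeasurableSet H1 := hme _ _ (F.norm_ta q) _
    (hnm.inter (measurableSet_lt Complex.measurable_re measurable_const))
  have hH2m : MeasurableSet H2 := hme _ _ (F.norm_ta p) _
    (hnm.inter (measurableSet_lt measurable_const Complex.measurable_re))
  -- parameters
  have hp1 : ∀ z ∈ H1, ∃ s ∈ Ico (q - r) q, ∃ t : ℝ, |t| ≤ 1 / 4 ∧ z = F.Ph s t := by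
    rintro _ ⟨z, ⟨hz1, hz2⟩, rfl⟩
    have h1 := (abs_le.1 ((Complex.abs_re_le_norm z).trans hz1)).1
    have h2 := (Complex.abs_im_le_norm z).trans hz1
    refine ⟨q + z.re, ⟨by linarith, by linarith⟩, z.im, h2.trans hr2, ?_⟩
    rw [F.Ph_gap hgap (s₀ := q) ⟨hpq.le, le_rfl⟩ ⟨by linarith, by linarith⟩, add_sub_cancel_left,
      Complex.re_add_im]
  have hp2 : ∀ z ∈ H2, ∃ s ∈ Ioc p (p + r), ∃ t : ℝ, |t| ≤ 1 / 4 ∧ z = F.Ph s t := by
    rintro _ ⟨z, ⟨hz1, hz2⟩, rfl⟩
    have h1 := (abs_le.1 ((Complex.abs_re_le_norm z).trans hz1)).2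
    have h2 := (Complex.abs_im_le_norm z).trans hz1
    refine ⟨p + z.re, ⟨by linarith, by linarith⟩, z.im, h2.trans hr2, ?_⟩
    rw [F.Ph_gap hgap (s₀ := p) ⟨le_rfl, hpq.le⟩ ⟨by linarith, by linarith⟩, add_sub_cancel_left,
      Complex.re_add_im]
  -- disjointness
  have hdis : ∀ (s s' t t' : ℝ), |t| ≤ 1 / 4 → |t'| ≤ 1 / 4 → p < s → s < p + 2 → p < s' →
      s' < p + 2 → F.Ph s t = F.Ph s' t' → s' = s := by
    intro s s' t t' ht ht' h1 h2 h3 h4 h
    obtain ⟨n, hn, -⟩ := F.inj ht ht' h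
    have hn1 : (n:ℝ) < 1 := by linarith
    have hn2 : (-1:ℝ) < n := by linarith
    have hn1' : n < 1 := by exact_mod_cast hn1
    have hn2' : -1 < n := by exact_mod_cast hn2
    have : n = 0 := by omega
    subst this
    rw [hn]; simp
  have hd1 : Disjoint T H1 := by
    rw [Set.disjoint_left]
    rintro z ⟨s, hs, t, ht, rfl⟩ hz
    obtain ⟨s', hs', t', ht', h⟩ := hp1 _ hz
    have := hdis s s' t t' ((abs_lt.2 ht).le.trans hr2) ht' (by linarith [hs.1]) (by linarith [hs.2])
      (by linarith [hs'.1]) (by linarith [hs'.2]) h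
    linarith [hs.1, hs'.2]
  have hd2 : Disjoint (T ∪ H1) H2 := by
    rw [Set.disjoint_left]
    rintro z hz hz2
    obtain ⟨s', hs', t', ht', h⟩ := hp2 _ hz2
    rcases hz with ⟨s, hs, t, ht, rfl⟩ | hz
    · have := hdis s s' t t' ((abs_lt.2 ht).le.trans hr2) ht' (by linarith [hs.1]) (by linarith [hs.2])
        (by linarith [hs'.1]) (by linarith [hs'.2]) h
      linarith [hs.1, hs'.2]
    · obtain ⟨s, hs, t, ht, rfl⟩ := hp1 _ hz
      have := hdis s s' t t' ht ht' (by linarith [hs.1]) (by linarith [hs.2])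
        (by linarith [hs'.1]) (by linarith [hs'.2]) h
      linarith [hs.1, hs'.2]
  -- inclusion
  have hq : F.ga q ∈ F.ga '' Icc q (p + 2) := ⟨q, ⟨le_rfl, by linarith⟩, rfl⟩
  have hp : F.ga p ∈ F.ga '' Icc q (p + 2) := ⟨p + 2, ⟨by linarith, le_rfl⟩, F.ga_add_two p⟩
  have hsub : (T ∪ H1) ∪ H2 ⊆ Metric.cthickening r (F.ga '' Icc q (p + 2)) := by
    rintro z ((⟨s, hs, t, ht, rfl⟩ | ⟨z, hz, rfl⟩) | ⟨z, hz, rfl⟩)
    · have hs' : F.ga s ∈ F.ga '' Icc q (p + 2) := ⟨s, ⟨hs.1.le, hs.2.le⟩, rfl⟩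
      apply Metric.mem_cthickening_of_dist_le _ (F.ga s) r _ hs'
      unfold Ph
      rw [dist_eq_norm, add_sub_cancel_left, norm_mul, norm_mul, Complex.norm_I, F.norm_ta, mul_one,
        mul_one, Complex.norm_real, Real.norm_eq_abs]
      exact (abs_lt.2 ht).le
    · apply Metric.mem_cthickening_of_dist_le _ (F.ga q) r _ hq
      rw [dist_eq_norm, add_sub_cancel_left, norm_mul, F.norm_ta, one_mul]
      exact hz.1
    · apply Metric.mem_cthickening_of_dist_le _ (F.ga p) r _ hp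
      rw [dist_eq_norm, add_sub_cancel_left, norm_mul, F.norm_ta, one_mul]
      exact hz.1
  calc ENNReal.ofReal (2 * r * (2 - (q - p))) + ENNReal.ofReal (Real.pi * r ^ 2)
      ≤ volume T + (volume H1 + volume H2) := by
        refine add_le_add (le_trans (le_of_eq ?_) hTv) hball
        congr 1; ring
    _ = volume ((T ∪ H1) ∪ H2) := by
        rw [measure_union hd2 hH2m, measure_union hd1 hH1m, add_assoc]
    _ ≤ _ := measure_mono hsub

end FatCantor

end Pool.Agent.W2helper83.MD
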